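import Pool.Agent.R612.TG.Defs2

/-! TB-ANT: a large antichain in `[K]^d` (helper327). -/

set_option autoImplicit false

namespace Pool.Agent.R612.TG

theorem anti_bdd (d K : ℕ) : BddAbove {s : ℕ | ∃ S : Finset (Fin d → Fin K),
    IsAntichain (· ≤ ·) (S : Set (Fin d → Fin K)) ∧ S.card = s} := by
  refine ⟨Fintype.card (Fin d → Fin K), ?_⟩
  rintro s ⟨S, -, rfl⟩
  exact Finset.card_le_univ S

theorem anti_att (d K : ℕ) : ∃ S : Finset (Fin d → Fin K),
    IsAntichain (· ≤ ·) (S : Set (Fin d → Fin K)) ∧ S.card = anti d K := by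
  have h := Nat.sSup_mem (s := {s : ℕ | ∃ S : Finset (Fin d → Fin K),
    IsAntichain (· ≤ ·) (S : Set (Fin d → Fin K)) ∧ S.card = s})
    ⟨0, ∅, by simp, rfl⟩ (anti_bdd d K)
  exact h

theorem card_le_anti (d K : ℕ) (S : Finset (Fin d → Fin K))
    (hS : IsAntichain (· ≤ ·) (S : Set (Fin d → Fin K))) : S.card ≤ anti d K :=
  le_csSup (anti_bdd d K) ⟨S, hS, rfl⟩

theorem anti_ge (d K : ℕ) (hd : 0 < d) (hK : 0 < K) : K ^ (d - 1) ≤ d * anti d K := by
  classical
  set f : (Fin d → Fin K) → ℕ := fun x => ∑ i, (x i : ℕ) with hf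
  have h1 : (Finset.univ : Finset (Fin d → Fin K)).card ≤
      anti d K * (Finset.range (d * (K - 1) + 1)).card := by
    refine Finset.card_le_mul_card_image_of_maps_to (f := f) ?_ _ ?_
    · intro x _
      rw [Finset.mem_range, Nat.lt_succ_iff, hf]
      calc ∑ i, (x i : ℕ) ≤ ∑ _i : Fin d, (K - 1) :=
            Finset.sum_le_sum fun i _ => by have := (x i).2; omega
        _ = d * (K - 1) := by simp
    · intro b _
      apply card_le_anti
      intro x hx y hy hxy hle
      simp only [Finset.coe_filter, Finset.mem_univ, true_and] at hx hy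
      have hx' : ∑ i, (x i : ℕ) = b := hx
      have hy' : ∑ i, (y i : ℕ) = b := hy
      obtain ⟨i, hi⟩ := Function.ne_iff.1 hxy
      have h3 : (x i : ℕ) < (y i : ℕ) := lt_of_le_of_ne (hle i) (fun h => hi (Fin.ext h))
      have h4 : ∑ i, (x i : ℕ) < ∑ i, (y i : ℕ) :=
        Finset.sum_lt_sum (fun j _ => hle j) ⟨i, Finset.mem_univ _, h3⟩
      omega
  rw [Finset.card_univ, Fintype.card_fun, Fintype.card_fin, Fintype.card_fin,
    Finset.card_range] at h1
  have h2 : d * (K - 1) + 1 ≤ d * K := by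
    obtain ⟨k, rfl⟩ : ∃ k, K = k + 1 := ⟨K - 1, by omega⟩
    rw [Nat.add_sub_cancel, Nat.mul_add]
    omega
  have h3 : K * K ^ (d - 1) ≤ K * (d * anti d K) := by
    calc K * K ^ (d - 1) = K ^ d := by
          rw [← pow_succ', Nat.sub_add_cancel hd]
      _ ≤ anti d K * (d * (K - 1) + 1) := h1
      _ ≤ anti d K * (d * K) := Nat.mul_le_mul_left _ h2
      _ = K * (d * anti d K) := by ring
  exact Nat.le_of_mul_le_mul_left h3 hK

end Pool.Agent.R612.TG
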