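import Pool.Agent.R612.TG.Defs2

/-! Piece TB-ANT3 (helper801): the middle layer of `[K]^3`. -/

set_option autoImplicit false

namespace Pool.Agent.R612.TG

open Finset

theorem anti3_layer (K s : ℕ) (hK : 0 < K) (hs : K ≤ s + 1) :
    ∑ x ∈ range K, (min (s - x) (K - 1) + 1 - (s - x - (K - 1))) ≤ anti 3 K := by
  classical
  set S : Finset (Fin 3 → Fin K) := univ.filter fun x => (x 0 : ℕ) + x 1 + x 2 = s with hS
  have hanti : IsAntichain (· ≤ ·) (S : Set (Fin 3 → Fin K)) := by
    intro x hx y hy hne hle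
    rw [hS, mem_coe, mem_filter] at hx hy
    apply hne
    have h0 : (x 0 : ℕ) ≤ y 0 := hle 0
    have h1 : (x 1 : ℕ) ≤ y 1 := hle 1
    have h2 : (x 2 : ℕ) ≤ y 2 := hle 2
    have e := hx.2.trans hy.2.symm
    funext i
    apply Fin.ext
    fin_cases i
    · show (x 0 : ℕ) = y 0
      omega
    · show (x 1 : ℕ) = y 1
      omega
    · show (x 2 : ℕ) = y 2
      omega
  have hcard : S.card ≤ anti 3 K := by
    unfold anti
    refine le_csSup ⟨Fintype.card (Fin 3 → Fin K), ?_⟩ ⟨S, hanti, rfl⟩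
    rintro _ ⟨R, -, rfl⟩
    exact R.card_le_univ
  set T : Finset ((_ : ℕ) × ℕ) := (range K).sigma fun x =>
    Icc (s - x - (K - 1)) (min (s - x) (K - 1)) with hT
  have hTc : T.card = ∑ x ∈ range K, (min (s - x) (K - 1) + 1 - (s - x - (K - 1))) := by
    rw [hT, card_sigma]
    simp only [Nat.card_Icc]
  have hTS : T ⊆ S.image fun x => (⟨(x 0 : ℕ), (x 1 : ℕ)⟩ : (_ : ℕ) × ℕ) := by
    rintro ⟨x, y⟩ h
    rw [hT, mem_sigma, mem_range, mem_Icc, le_min_iff] at h
    obtain ⟨h1, h2, h3, h4⟩ := h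
    dsimp only at h1 h2 h3 h4
    rw [mem_image]
    refine ⟨![⟨x, h1⟩, ⟨y, by omega⟩, ⟨s - x - y, by omega⟩], ?_, rfl⟩
    rw [hS, mem_filter]
    refine ⟨mem_univ _, ?_⟩
    show x + y + (s - x - y) = s
    omega
  rw [← hTc]
  exact (card_le_card hTS).trans (card_image_le.trans hcard)

theorem anti3_ge (K : ℕ) : 3 * K ^ 2 ≤ 4 * anti 3 K := by
  rcases Nat.even_or_odd' K with ⟨j, rfl | rfl⟩
  · rcases Nat.eq_zero_or_pos j with rfl | hj
    · simp
    · have h := anti3_layer (2 * j) (3 * j - 2) (by omega) (by omega)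
      rw [show range (2 * j) = range (j + j) by rw [two_mul], sum_range_add,
        ← sum_add_distrib] at h
      have e : ∀ i ∈ range j, (min (3 * j - 2 - i) (2 * j - 1) + 1 - (3 * j - 2 - i - (2 * j - 1))) +
          (min (3 * j - 2 - (j + i)) (2 * j - 1) + 1 - (3 * j - 2 - (j + i) - (2 * j - 1)))
          = 3 * j := by
        intro i hi
        rw [mem_range] at hi
        omega
      rw [sum_congr rfl e, sum_const, card_range, smul_eq_mul] at h
      nlinarith
  · have h := anti3_layer (2 * j + 1) (3 * j) (by omega) (by omega)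
    rw [show range (2 * j + 1) = range (j + (j + 1)) by congr 1; omega, sum_range_add,
      sum_range_succ', ← add_assoc, ← sum_add_distrib] at h
    have e : ∀ i ∈ range j, (min (3 * j - i) (2 * j + 1 - 1) + 1 - (3 * j - i - (2 * j + 1 - 1))) +
        (min (3 * j - (j + (i + 1))) (2 * j + 1 - 1) + 1 - (3 * j - (j + (i + 1)) - (2 * j + 1 - 1)))
        = 3 * j + 1 := by
      intro i hi
      rw [mem_range] at hi
      omega
    rw [sum_congr rfl e, sum_const, card_range, smul_eq_mul] at h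
    have e2 : min (3 * j - (j + 0)) (2 * j + 1 - 1) + 1 - (3 * j - (j + 0) - (2 * j + 1 - 1))
        = 2 * j + 1 := by omega
    rw [e2] at h
    nlinarith

end Pool.Agent.R612.TG
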