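import Pool.Agent.R612.TG.Defs

/-! TG-AV: the blown up set avoids the pattern (with `extend`, `mono1`, `mono2` as hypotheses). -/

set_option autoImplicit false

namespace Pool.Agent.R612.TG

variable {d : ℕ}

/-- a strictly increasing map between `Fin`s increases gaps -/
lemma av_gap {K n : ℕ} (f : Fin K ↪o Fin n) :
    ∀ (t : ℕ) (a c : Fin K), (c : ℕ) = (a : ℕ) + t →
      ((f a : Fin n) : ℕ) + t ≤ ((f c : Fin n) : ℕ) := by
  intro t
  induction t with
  | zero =>
    intro a c h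
    have : a = c := Fin.ext (by omega)
    rw [this]; simp
  | succ t ih =>
    intro a c h
    have hc' : (a : ℕ) + t < K := by have := c.2; omega
    have h1 := ih a ⟨(a : ℕ) + t, hc'⟩ rfl
    have h2 : f ⟨(a : ℕ) + t, hc'⟩ < f c := by
      rw [f.lt_iff_lt]
      rw [Fin.lt_def]
      simp only []
      omega
    have h3 : ((f ⟨(a : ℕ) + t, hc'⟩ : Fin n) : ℕ) < ((f c : Fin n) : ℕ) := h2
    omega

theorem big_avoids
    (hext : ∀ (K n : ℕ) (R : Finset (Fin K)) (v : Fin K → ℕ), (∀ r ∈ R, v r < n) →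
      (∃ r ∈ R, (r : ℕ) = 0) → (∃ r ∈ R, (r : ℕ) + 1 = K) →
      (∀ r ∈ R, ∀ s ∈ R, r ≤ s → v r + ((s : ℕ) - (r : ℕ)) ≤ v s) →
      ∃ ψ : Fin K ↪o Fin n, ∀ r ∈ R, ((ψ r : Fin n) : ℕ) = v r)
    (hm1 : ∀ (k n : ℤ), 0 < k → 0 < n → ∀ (G : Finset (Fin d)) (ι ι' : ℤ),
      0 ≤ ι → ι < k → 0 ≤ ι' → ι' < k → ∀ (Y y Y' y' : Fin d → ℤ),
      Rel k n G ι Y y → Rel k n G ι' Y' y' → (∀ i ∈ G, Y i ≤ Y' i) → ι ≤ ι')
    (hm2 : ∀ (k n : ℤ), 0 < k → 0 < n → ∀ (G : Finset (Fin d)) (ι : ℤ),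
      0 ≤ ι → ι < k → ∀ (Y y Y' y' : Fin d → ℤ) (g : ℤ), 0 ≤ g →
      Rel k n G ι Y y → Rel k n G ι Y' y' → (∀ i ∈ G, Y i + g ≤ Y' i) →
      ∀ i ∈ G, y i + g ≤ y' i)
    (side : Fin d → Bool) (_hs : ∀ b, ∃ i, side i = b) (K : Bool → ℕ)
    (Q : Finset ((b : Bool) → Fin (K b))) (hQ : Trim K Q) (hc : Conn K Q) (k n : ℕ) (hk : 0 < k)
    (hn : 0 < n) (A : Finset (Fin d → Fin n))
    (hA : Avoids (fun i => K (side i)) (dup side K Q) A) :
    Avoids (fun i => K (side i)) (dup side K Q) (big k n side A) := by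
  classical
  rintro ⟨φ, hφ⟩
  have : Nonempty (Fin d → Fin n) := ⟨fun _ => ⟨0, hn⟩⟩
  have H : ∀ q ∈ Q, ∃ ι : ℕ, ι < k ∧ ∃ y ∈ A,
      Rel (k : ℤ) n (Gr side true) ι (zc (fun i => φ i (q (side i)))) (zc y) ∧
      Rel (k : ℤ) n (Gr side false) (k - 1 - ι) (zc (fun i => φ i (q (side i)))) (zc y) := by
    intro q hq
    have h := hφ (fun i => q (side i)) (Finset.mem_image_of_mem _ hq)
    unfold big at h
    exact (Finset.mem_filter.1 h).2
  choose! ι hι y hyA hT hF using H
  have hkz : (0 : ℤ) < k := by exact_mod_cast hk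
  have hnz : (0 : ℤ) < n := by exact_mod_cast hn
  -- the block index is constant
  have hstep : ∀ p ∈ Q, ∀ q ∈ Q, p ≤ q → ι p = ι q := by
    intro p hp q hq hpq
    have hX : ∀ i : Fin d, zc (fun i => φ i (p (side i))) i ≤ zc (fun i => φ i (q (side i))) i := by
      intro i
      have h1 : φ i (p (side i)) ≤ φ i (q (side i)) := (φ i).monotone (hpq (side i))
      have h2 : ((φ i (p (side i)) : Fin (k * n)) : ℕ) ≤ ((φ i (q (side i)) : Fin (k * n)) : ℕ) := h1
      simp only [zc]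
      exact_mod_cast h2
    have e1 : (ι p : ℤ) < k := by exact_mod_cast hι p hp
    have e2 : (ι q : ℤ) < k := by exact_mod_cast hι q hq
    have h1 := hm1 k n hkz hnz (Gr side true) (ι p) (ι q) (by positivity) e1 (by positivity) e2
      _ _ _ _ (hT p hp) (hT q hq) (fun i _ => hX i)
    have h2 := hm1 k n hkz hnz (Gr side false) (k - 1 - ι p) (k - 1 - ι q) (by omega) (by omega)
      (by omega) (by omega) _ _ _ _ (hF p hp) (hF q hq) (fun i _ => hX i)
    omega
  have hconst := hc ι hstep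
  -- monotonicity with gaps
  have hgap : ∀ p ∈ Q, ∀ q ∈ Q, ∀ i : Fin d, p (side i) ≤ q (side i) →
      ((y p i : Fin n) : ℕ) + (((q (side i) : Fin _) : ℕ) - ((p (side i) : Fin _) : ℕ)) ≤
        ((y q i : Fin n) : ℕ) := by
    intro p hp q hq i hpq
    have hpq' : ((p (side i) : Fin _) : ℕ) ≤ ((q (side i) : Fin _) : ℕ) := hpq
    have hX : ∀ j : Fin d, side j = side i →
        zc (fun i => φ i (p (side i))) j +
          ((((q (side i) : Fin _) : ℕ) : ℤ) - (((p (side i) : Fin _) : ℕ) : ℤ)) ≤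
          zc (fun i => φ i (q (side i))) j := by
      intro j hj
      have hvp : ((p (side j) : Fin _) : ℕ) = ((p (side i) : Fin _) : ℕ) := by rw [hj]
      have hvq : ((q (side j) : Fin _) : ℕ) = ((q (side i) : Fin _) : ℕ) := by rw [hj]
      have h1 := av_gap (φ j)
        (((q (side i) : Fin _) : ℕ) - ((p (side i) : Fin _) : ℕ)) (p (side j)) (q (side j))
        (by omega)
      simp only [zc]
      omega
    have hi := hconst p hp q hq
    have e1 : (ι p : ℤ) < k := by exact_mod_cast hι p hp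
    have key : zc (y p) i +
        ((((q (side i) : Fin _) : ℕ) : ℤ) - (((p (side i) : Fin _) : ℕ) : ℤ)) ≤ zc (y q) i := by
      by_cases hsi : side i = true
      · have hq' := hT q hq
        rw [← hi] at hq'
        have := hm2 k n hkz hnz (Gr side true) (ι p) (by positivity) e1 _ _ _ _
          ((((q (side i) : Fin _) : ℕ) : ℤ) - (((p (side i) : Fin _) : ℕ) : ℤ)) (by omega)
          (hT p hp) hq' (fun j hj => hX j (by
            have := (Finset.mem_filter.1 hj).2
            rw [this, hsi])) i (by simp [Gr, hsi])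
        exact this
      · rw [Bool.not_eq_true] at hsi
        have hq' := hF q hq
        rw [← hi] at hq'
        have := hm2 k n hkz hnz (Gr side false) (k - 1 - ι p) (by omega) (by omega) _ _ _ _
          ((((q (side i) : Fin _) : ℕ) : ℤ) - (((p (side i) : Fin _) : ℕ) : ℤ)) (by omega)
          (hF p hp) hq' (fun j hj => hX j (by
            have := (Finset.mem_filter.1 hj).2
            rw [this, hsi])) i (by simp [Gr, hsi])
        exact this
    simp only [zc] at key
    omega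
  -- the values
  let v : (i : Fin d) → Fin (K (side i)) → ℕ := fun i r =>
    if h : ∃ q ∈ Q, q (side i) = r then ((y h.choose i : Fin n) : ℕ) else 0
  have hv : ∀ (i : Fin d), ∀ q ∈ Q, v i (q (side i)) = ((y q i : Fin n) : ℕ) := by
    intro i q hq
    have h : ∃ q' ∈ Q, q' (side i) = q (side i) := ⟨q, hq, rfl⟩
    have h1 : v i (q (side i)) = ((y h.choose i : Fin n) : ℕ) := by
      simp only [v]
      rw [dif_pos h]
    have h2 := h.choose_spec
    have h3 := hgap _ h2.1 q hq i h2.2.le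
    have h4 := hgap q hq _ h2.1 i h2.2.ge
    rw [h1]
    omega
  have hψ : ∀ i : Fin d, ∃ ψ : Fin (K (side i)) ↪o Fin n,
      ∀ r ∈ Q.image (fun q => q (side i)), ((ψ r : Fin n) : ℕ) = v i r := by
    intro i
    apply hext
    · intro r hr
      obtain ⟨q, hq, rfl⟩ := Finset.mem_image.1 hr
      rw [hv i q hq]
      exact (y q i).2
    · obtain ⟨q, hq, h⟩ := (hQ (side i)).1
      exact ⟨q (side i), Finset.mem_image_of_mem _ hq, h⟩
    · obtain ⟨q, hq, h⟩ := (hQ (side i)).2
      exact ⟨q (side i), Finset.mem_image_of_mem _ hq, h⟩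
    · intro r hr s hs hrs
      obtain ⟨p, hp, rfl⟩ := Finset.mem_image.1 hr
      obtain ⟨q, hq, rfl⟩ := Finset.mem_image.1 hs
      rw [hv i p hp, hv i q hq]
      exact hgap p hp q hq i hrs
  choose ψ hψ' using hψ
  apply hA
  refine ⟨ψ, ?_⟩
  intro x hx
  obtain ⟨q, hq, rfl⟩ := Finset.mem_image.1 hx
  have : (fun i => ψ i (q (side i))) = y q := by
    funext i
    apply Fin.ext
    rw [hψ' i _ (Finset.mem_image_of_mem _ hq), hv i q hq]
  simp only [this]
  exact hyA q hq

end Pool.Agent.R612.TG
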