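import Pool.Agent.R612.TG.Defs

/-! TG-BLD: explicit integer preimages. -/

set_option autoImplicit false

namespace Pool.Agent.R612.TG

variable {d : ℕ}

theorem bld_core (k n ι ε y0 δ : ℤ) (hk : 0 < k) :
    ∃ s r m T D : ℤ, 0 ≤ s ∧ s < k ∧ 0 ≤ r ∧ r < k ∧ r = (ι * ε) % k ∧ m = δ - (ε + r) / k ∧
      T = y0 + ι * n - (ι * ε) / k - ι * m ∧ D = ε + k * m ∧ D = k * δ + s - r ∧
      k * T + ι * D = k * (y0 + ι * n) + r := by
  refine ⟨(ε + (ι * ε) % k) % k, (ι * ε) % k, δ - (ε + (ι * ε) % k) / k,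
    y0 + ι * n - (ι * ε) / k - ι * (δ - (ε + (ι * ε) % k) / k),
    ε + k * (δ - (ε + (ι * ε) % k) / k), Int.emod_nonneg _ hk.ne', Int.emod_lt_of_pos _ hk,
    Int.emod_nonneg _ hk.ne', Int.emod_lt_of_pos _ hk, rfl, rfl, rfl, rfl, ?_, ?_⟩
  · have h1 := Int.emod_add_mul_ediv (ε + (ι * ε) % k) k
    linear_combination -h1
  · have h2 := Int.emod_add_mul_ediv (ι * ε) k
    linear_combination -h2

theorem build (k n : ℤ) (hk : 0 < k) (hn : 0 < n) (G : Finset (Fin d)) (j0 j1 : Fin d)
    (hj0 : j0 ∈ G) (hj1 : j1 ∈ G) (ι : ℤ) (h0 : 0 ≤ ι) (h1 : ι < k) (y : Fin d → ℤ)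
    (hy : ∀ i ∈ G, 0 ≤ y i ∧ y i < n) (hmin : ∀ i ∈ G, i ≠ j0 → y j0 < y i)
    (hmax : ∀ i ∈ G, i ≠ j1 → y i < y j1) (e : Fin d → ℤ) (he : ∀ i ∈ G, 0 ≤ e i ∧ e i < k)
    (he0 : e j0 = 0) :
    (∀ i ∈ G, 0 ≤ bld k n j0 j1 ι y e i ∧ bld k n j0 j1 ι y e i < k * n) ∧
      Rel k n G ι (bld k n j0 j1 ι y e) y := by
  obtain ⟨s, r, m, T, D, hs0, hs1, hr0, hr1, hr, hm, hT, hD, hD', hTD⟩ :=
    bld_core k n ι (e j1) (y j0) (y j1 - y j0) hk
  have hb : ∀ i, bld k n j0 j1 ι y e i =
      if i = j0 then T else if i = j1 then T + D else T + k * (y i - y j0) - r + e i := by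
    intro i
    simp only [bld]
    rw [← hr, ← hm, ← hT, ← hD]
  have hb0 : bld k n j0 j1 ι y e j0 = T := by rw [hb]; simp
  have hb1 : bld k n j0 j1 ι y e j1 = T + D := by
    rw [hb]
    by_cases h : j1 = j0
    · have e1 : e j1 = 0 := by rw [h]; exact he0
      have e2 : r = 0 := by rw [hr, e1]; simp
      have e3 : D = 0 := by
        rw [hD, hm, e1, e2, h]
        simp
      rw [if_pos h, e3, add_zero]
    · rw [if_neg h, if_pos rfl]
  have hbo : ∀ i, i ≠ j0 → i ≠ j1 → bld k n j0 j1 ι y e i = T + k * (y i - y j0) - r + e i := by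
    intro i hi0 hi1
    rw [hb, if_neg hi0, if_neg hi1]
  -- `D ≥ 0`
  have hδ : 0 ≤ y j1 - y j0 := by
    by_cases h : j1 = j0
    · rw [h]; simp
    · have := hmin j1 hj1 h
      linarith
  have hD0 : 0 ≤ D := by
    by_cases h : j1 = j0
    · have e1 : e j1 = 0 := by rw [h]; exact he0
      have e2 : r = 0 := by rw [hr, e1]; simp
      have e3 : D = 0 := by
        rw [hD, hm, e1, e2, h]
        simp
      rw [e3]
    · have h2 := hmin j1 hj1 h
      have h3 : k * 1 ≤ k * (y j1 - y j0) := mul_le_mul_of_nonneg_left (by linarith) hk.le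
      linarith
  have hlow : ∀ i ∈ G, T ≤ bld k n j0 j1 ι y e i := by
    intro i hi
    by_cases hi0 : i = j0
    · rw [hi0, hb0]
    · by_cases hi1 : i = j1
      · rw [hi1, hb1]; linarith
      · rw [hbo i hi0 hi1]
        have h2 := hmin i hi hi0
        have h3 : k * 1 ≤ k * (y i - y j0) := mul_le_mul_of_nonneg_left (by linarith) hk.le
        linarith [(he i hi).1]
  have hupp : ∀ i ∈ G, bld k n j0 j1 ι y e i ≤ T + D := by
    intro i hi
    by_cases hi0 : i = j0
    · rw [hi0, hb0]; linarith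
    · by_cases hi1 : i = j1
      · rw [hi1, hb1]
      · rw [hbo i hi0 hi1]
        have h2 := hmax i hi hi1
        have h3 : k * 1 ≤ k * (y j1 - y i) := mul_le_mul_of_nonneg_left (by linarith) hk.le
        have h4 : D = k * (y i - y j0) + k * (y j1 - y i) + s - r := by rw [hD']; ring
        linarith [(he i hi).2]
  have hy0 := hy j0 hj0
  have hy1 := hy j1 hj1
  have hT0 : 0 ≤ T := by
    have h2 : 0 ≤ k * T := by
      have e1 : k * T = k * y j0 + r * (1 + ι) + ι * (k * (n - (y j1 - y j0)) - s) := by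
        rw [hD'] at hTD
        linear_combination hTD
      rw [e1]
      have e2 : 0 ≤ k * (n - (y j1 - y j0)) - s := by
        have : k * 1 ≤ k * (n - (y j1 - y j0)) :=
          mul_le_mul_of_nonneg_left (by linarith) hk.le
        linarith
      have e3 := mul_nonneg h0 e2
      have e4 := mul_nonneg hk.le hy0.1
      have e5 : 0 ≤ r * (1 + ι) := mul_nonneg hr0 (by linarith)
      linarith
    exact nonneg_of_mul_nonneg_right h2 hk
  have hM : T + D < k * n := by
    have h2 : k * (T + D) < k * (k * n) := by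
      have e1 : k * (T + D) = k * (y j0 + ι * n) + r + (k - ι) * D := by linear_combination hTD
      have e2 : D ≤ k * (n - 1 - y j0) + (k - 1) - r := by
        have : k * (y j1 - y j0) ≤ k * (n - 1 - y j0) :=
          mul_le_mul_of_nonneg_left (by linarith [Int.add_one_le_iff.2 hy1.2]) hk.le
        linarith [Int.add_one_le_iff.2 hs1]
      have e3 : (k - ι) * D ≤ (k - ι) * (k * (n - 1 - y j0) + (k - 1) - r) :=
        mul_le_mul_of_nonneg_left e2 (by linarith)
      have e4 : 1 * (k * y j0 + 1 + r) ≤ (k - ι) * (k * y j0 + 1 + r) := by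
        apply mul_le_mul_of_nonneg_right (by linarith [Int.add_one_le_iff.2 h1])
        have := mul_nonneg hk.le hy0.1
        linarith
      have e5 : (k - ι) * (k * (n - 1 - y j0) + (k - 1) - r) =
          (k - ι) * (k * n) - (k - ι) * (k * y j0 + 1 + r) := by ring
      have e6 : (k - ι) * (k * n) = k * (k * n) - k * (ι * n) := by ring
      have e7 : k * (y j0 + ι * n) = k * y j0 + k * (ι * n) := by ring
      linarith
    exact lt_of_mul_lt_mul_left h2 hk.le
  refine ⟨fun i hi => ⟨hT0.trans (hlow i hi), (hupp i hi).trans_lt hM⟩, T, T + D, hlow,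
    ⟨j0, hj0, hb0⟩, hupp, ⟨j1, hj1, hb1⟩, ?_⟩
  intro i hi
  have hkey : (k - ι - 1) * T + ι * (T + D) + bld k n j0 j1 ι y e i =
      k * (y j0 + ι * n) + r + (bld k n j0 j1 ι y e i - T) := by linear_combination hTD
  refine ⟨(hy i hi).1, (hy i hi).2, ?_⟩
  rw [hkey]
  by_cases hi1 : i = j1
  · rw [hi1, hb1, add_sub_cancel_left, hD']
    have e1 : k * (y j0 + ι * n) + r + (k * (y j1 - y j0) + s - r) =
        k * (y j1 + ι * n) + s := by ring
    rw [e1]
    constructor <;> linarith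
  · by_cases hi0 : i = j0
    · rw [hi0, hb0, sub_self, add_zero]
      constructor <;> linarith
    · rw [hbo i hi0 hi1]
      have e1 : k * (y j0 + ι * n) + r + (T + k * (y i - y j0) - r + e i - T) =
          k * (y i + ι * n) + e i := by ring
      rw [e1]
      have := he i hi
      constructor <;> linarith

theorem bld_inj (k n : ℤ) (hk : 0 < k) (G : Finset (Fin d)) (j0 j1 : Fin d)
    (hj0 : j0 ∈ G) (hj1 : j1 ∈ G) (ι : ℤ) (y e e' : Fin d → ℤ)
    (he : ∀ i ∈ G, 0 ≤ e i ∧ e i < k) (he' : ∀ i ∈ G, 0 ≤ e' i ∧ e' i < k)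
    (he0 : e j0 = 0) (he0' : e' j0 = 0)
    (h : ∀ i ∈ G, bld k n j0 j1 ι y e i = bld k n j0 j1 ι y e' i) : ∀ i ∈ G, e i = e' i := by
  have h1 : e j1 = e' j1 := by
    by_cases h2 : j1 = j0
    · rw [h2, he0, he0']
    · have h3 := h j0 hj0
      have h4 := h j1 hj1
      simp only [bld] at h3 h4
      rw [if_pos trivial, if_pos trivial] at h3
      rw [if_neg h2, if_neg h2, if_pos trivial, if_pos trivial, h3] at h4
      have h5 := add_left_cancel h4
      have h6 : (e j1) % k = (e' j1) % k := by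
        have h7 := congrArg (fun z => z % k) h5
        simpa [Int.add_mul_emod_self_left] using h7
      rwa [Int.emod_eq_of_lt (he j1 hj1).1 (he j1 hj1).2,
        Int.emod_eq_of_lt (he' j1 hj1).1 (he' j1 hj1).2] at h6
  intro i hi
  by_cases hi0 : i = j0
  · rw [hi0, he0, he0']
  · by_cases hi1 : i = j1
    · rw [hi1, h1]
    · have h3 := h i hi
      simp only [bld] at h3
      rw [if_neg hi0, if_neg hi1, if_neg hi0, if_neg hi1, h1] at h3
      exact add_left_cancel h3

end Pool.Agent.R612.TG
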