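import Pool.Agent.R612.TG.Defs

/-! TG-CNT: counting the blown up set. -/

set_option autoImplicit false

namespace Pool.Agent.R612.TG

variable {d : ℕ}

namespace CNT

/-- statement of `build` -/
def BuildStmt (d : ℕ) : Prop := ∀ (k n : ℤ), 0 < k → 0 < n → ∀ (G : Finset (Fin d))
    (j0 j1 : Fin d), j0 ∈ G → j1 ∈ G → ∀ (ι : ℤ), 0 ≤ ι → ι < k → ∀ (y : Fin d → ℤ),
    (∀ i ∈ G, 0 ≤ y i ∧ y i < n) → (∀ i ∈ G, i ≠ j0 → y j0 < y i) →
    (∀ i ∈ G, i ≠ j1 → y i < y j1) → ∀ (e : Fin d → ℤ), (∀ i ∈ G, 0 ≤ e i ∧ e i < k) →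
    e j0 = 0 →
    (∀ i ∈ G, 0 ≤ bld k n j0 j1 ι y e i ∧ bld k n j0 j1 ι y e i < k * n) ∧
      Rel k n G ι (bld k n j0 j1 ι y e) y

/-- statement of `bld_inj` -/
def InjStmt (d : ℕ) : Prop := ∀ (k n : ℤ), 0 < k → ∀ (G : Finset (Fin d)) (j0 j1 : Fin d),
    j0 ∈ G → j1 ∈ G → ∀ (ι : ℤ) (y e e' : Fin d → ℤ),
    (∀ i ∈ G, 0 ≤ e i ∧ e i < k) → (∀ i ∈ G, 0 ≤ e' i ∧ e' i < k) →
    e j0 = 0 → e' j0 = 0 →
    (∀ i ∈ G, bld k n j0 j1 ι y e i = bld k n j0 j1 ι y e' i) → ∀ i ∈ G, e i = e' i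

/-- statement of `mono1` -/
def Mono1Stmt (d : ℕ) : Prop := ∀ (k n : ℤ), 0 < k → 0 < n → ∀ (G : Finset (Fin d)) (ι ι' : ℤ),
    0 ≤ ι → ι < k → 0 ≤ ι' → ι' < k → ∀ (Y y Y' y' : Fin d → ℤ),
    Rel k n G ι Y y → Rel k n G ι' Y' y' → (∀ i ∈ G, Y i ≤ Y' i) → ι ≤ ι'

/-- statement of `mono2` -/
def Mono2Stmt (d : ℕ) : Prop := ∀ (k n : ℤ), 0 < k → 0 < n → ∀ (G : Finset (Fin d)) (ι : ℤ),
    0 ≤ ι → ι < k → ∀ (Y y Y' y' : Fin d → ℤ) (g : ℤ), 0 ≤ g →
    Rel k n G ι Y y → Rel k n G ι Y' y' → (∀ i ∈ G, Y i + g ≤ Y' i) → ∀ i ∈ G, y i + g ≤ y' i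

theorem Rel_congr (k n : ℤ) (G : Finset (Fin d)) (ι : ℤ) (Y Y' y : Fin d → ℤ)
    (h : ∀ i ∈ G, Y i = Y' i) (hr : Rel k n G ι Y y) : Rel k n G ι Y' y := by
  obtain ⟨T, M, h1, ⟨a, ha, ha2⟩, h3, ⟨b, hb, hb2⟩, h5⟩ := hr
  refine ⟨T, M, ?_, ⟨a, ha, ?_⟩, ?_, ⟨b, hb, ?_⟩, ?_⟩
  · intro i hi
    rw [← h i hi]
    exact h1 i hi
  · rw [← h a ha]
    exact ha2
  · intro i hi
    rw [← h i hi]
    exact h3 i hi
  · rw [← h b hb]
    exact hb2
  · intro i hi
    rw [← h i hi]
    exact h5 i hi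

theorem mem_Gr (side : Fin d → Bool) (b : Bool) (i : Fin d) : i ∈ Gr side b ↔ side i = b := by
  simp [Gr]

theorem exists_min (side : Fin d → Bool) (hs : ∀ b, ∃ i, side i = b) {n : ℕ} (b : Bool)
    (y : Fin d → Fin n) : ∃ j, side j = b ∧ ∀ i, side i = b → y j ≤ y i := by
  obtain ⟨i0, hi0⟩ := hs b
  obtain ⟨j, hj, hj2⟩ := Finset.exists_min_image (Gr side b) y ⟨i0, (mem_Gr side b i0).mpr hi0⟩
  exact ⟨j, (mem_Gr side b j).mp hj, fun i hi => hj2 i ((mem_Gr side b i).mpr hi)⟩

theorem exists_max (side : Fin d → Bool) (hs : ∀ b, ∃ i, side i = b) {n : ℕ} (b : Bool)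
    (y : Fin d → Fin n) : ∃ j, side j = b ∧ ∀ i, side i = b → y i ≤ y j := by
  obtain ⟨i0, hi0⟩ := hs b
  obtain ⟨j, hj, hj2⟩ := Finset.exists_max_image (Gr side b) y ⟨i0, (mem_Gr side b i0).mpr hi0⟩
  exact ⟨j, (mem_Gr side b j).mp hj, fun i hi => hj2 i ((mem_Gr side b i).mpr hi)⟩

open Classical in
/-- the possible parameters -/
noncomputable def Es (k : ℕ) (hk : 0 < k) (a b : Fin d) : Finset (Fin d → Fin k) :=
  Fintype.piFinset fun i => if i = a ∨ i = b then {⟨0, hk⟩} else Finset.univ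

theorem mem_Es (k : ℕ) (hk : 0 < k) (a b : Fin d) (e : Fin d → Fin k) (he : e ∈ Es k hk a b) :
    (e a : ℕ) = 0 ∧ (e b : ℕ) = 0 := by
  unfold Es at he
  rw [Fintype.mem_piFinset] at he
  have h1 := he a
  have h2 := he b
  rw [if_pos (Or.inl rfl), Finset.mem_singleton] at h1
  rw [if_pos (Or.inr rfl), Finset.mem_singleton] at h2
  rw [h1, h2]
  exact ⟨rfl, rfl⟩

theorem card_Es (k : ℕ) (hk : 0 < k) (a b : Fin d) (hab : a ≠ b) :
    (Es k hk a b).card = k ^ (d - 2) := by
  classical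
  unfold Es
  rw [Fintype.card_piFinset]
  have h1 : ∀ i : Fin d, (if i = a ∨ i = b then ({⟨0, hk⟩} : Finset (Fin k)) else
      Finset.univ).card = if i = a ∨ i = b then 1 else k := by
    intro i
    split_ifs
    · simp
    · simp
  rw [Finset.prod_congr rfl (fun i _ => h1 i), Finset.prod_ite, Finset.prod_const_one, one_mul,
    Finset.prod_const]
  congr 1
  have h2 : (Finset.univ.filter fun i : Fin d => ¬ (i = a ∨ i = b)) =
      Finset.univ \ {a, b} := by
    ext i
    simp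
  rw [h2, Finset.card_sdiff_of_subset (Finset.subset_univ _), Finset.card_pair hab]
  simp

end CNT

open CNT in
theorem count_of (Hb : BuildStmt d) (Hi : InjStmt d) (H1 : Mono1Stmt d) (H2 : Mono2Stmt d)
    (side : Fin d → Bool) (hs : ∀ b, ∃ i, side i = b) (k n : ℕ) (hk : 0 < k) (hn : 0 < n)
    (A : Finset (Fin d → Fin n)) : k ^ (d - 1) * (gen side A).card ≤ (big k n side A).card := by
  classical
  have hkz : (0 : ℤ) < k := by exact_mod_cast hk
  have hnz : (0 : ℤ) < n := by exact_mod_cast hn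
  have hd : 2 ≤ d := by
    obtain ⟨i, hi⟩ := hs true
    obtain ⟨j, hj⟩ := hs false
    have hij : (i : ℕ) ≠ (j : ℕ) := by
      intro h
      have : i = j := Fin.ext h
      rw [this, hj] at hi
      exact Bool.noConfusion hi
    have := i.2
    have := j.2
    omega
  -- extremal coordinates
  choose jm hjm1 hjm2 using fun (b : Bool) (y : Fin d → Fin n) => exists_min side hs b y
  choose jM hjM1 hjM2 using fun (b : Bool) (y : Fin d → Fin n) => exists_max side hs b y
  -- index of the block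
  let ix : Bool → ℤ → ℤ := fun b ι => if b = true then ι else k - 1 - ι
  let Z : Fin k → (Fin d → Fin n) → (Fin d → Fin k) → Fin d → ℤ := fun ι y e i =>
    bld k n (jm (side i) y) (jM (side i) y) (ix (side i) ((ι : ℕ) : ℤ)) (zc y) (zc e) i
  have hkn : 0 < k * n := Nat.mul_pos hk hn
  let f : (Σ _ : Fin k × (Fin d → Fin n), Fin d → Fin k) → (Fin d → Fin (k * n)) := fun t i =>
    ⟨(Z t.1.1 t.1.2 t.2 i).toNat % (k * n), Nat.mod_lt _ hkn⟩
  let S : Finset (Σ _ : Fin k × (Fin d → Fin n), Fin d → Fin k) :=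
    ((Finset.univ : Finset (Fin k)) ×ˢ (gen side A)).sigma
      fun p => Es k hk (jm true p.2) (jm false p.2)
  have hcard : S.card = k ^ (d - 1) * (gen side A).card := by
    rw [Finset.card_sigma]
    have h1 : ∀ p ∈ ((Finset.univ : Finset (Fin k)) ×ˢ (gen side A)),
        (Es k hk (jm true p.2) (jm false p.2)).card = k ^ (d - 2) := by
      intro p _
      apply card_Es
      intro h
      have h3 := hjm1 true p.2
      have h4 := hjm1 false p.2
      rw [h, h4] at h3
      exact Bool.noConfusion h3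
    rw [Finset.sum_congr rfl h1, Finset.sum_const, Finset.card_product, Finset.card_univ,
      Fintype.card_fin, smul_eq_mul]
    have h5 : k ^ (d - 1) = k * k ^ (d - 2) := by
      rw [← pow_succ']
      congr 1
      omega
    rw [h5]
    ring
  -- facts on the members
  have hix : ∀ (b : Bool) (ι : Fin k), 0 ≤ ix b ((ι : ℕ) : ℤ) ∧ ix b ((ι : ℕ) : ℤ) < k := by
    intro b ι
    have h1 : ((ι : ℕ) : ℤ) < k := by exact_mod_cast ι.2
    have h0 : (0 : ℤ) ≤ ((ι : ℕ) : ℤ) := by positivity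
    simp only [ix]
    split_ifs <;> omega
  have hmain : ∀ (ι : Fin k) (y : Fin d → Fin n) (e : Fin d → Fin k), y ∈ gen side A →
      e ∈ Es k hk (jm true y) (jm false y) → ∀ b,
      (∀ i ∈ Gr side b, 0 ≤ Z ι y e i ∧ Z ι y e i < k * n) ∧
        Rel k n (Gr side b) (ix b ((ι : ℕ) : ℤ)) (Z ι y e) (zc y) := by
    intro ι y e hy he b
    have hy2 : ∀ i j, i ≠ j → side i = side j → y i ≠ y j := by
      unfold gen at hy
      rw [Finset.mem_filter] at hy
      exact hy.2
    have he2 : (e (jm b y) : ℕ) = 0 := by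
      have := mem_Es k hk _ _ e he
      cases b
      · exact this.2
      · exact this.1
    have hbu := Hb k n hkz hnz (Gr side b) (jm b y) (jM b y) ((mem_Gr side b _).mpr (hjm1 b y))
      ((mem_Gr side b _).mpr (hjM1 b y)) (ix b ((ι : ℕ) : ℤ)) (hix b ι).1 (hix b ι).2 (zc y)
      (by
        intro i _
        unfold zc
        have := (y i).2
        constructor
        · positivity
        · exact_mod_cast this)
      (by
        intro i hi hij
        rw [mem_Gr] at hi
        have h3 := hjm2 b y i hi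
        have h4 := hy2 i (jm b y) hij (by rw [hi, hjm1])
        have h5 : y (jm b y) < y i := lt_of_le_of_ne h3 (Ne.symm h4)
        unfold zc
        exact_mod_cast h5)
      (by
        intro i hi hij
        rw [mem_Gr] at hi
        have h3 := hjM2 b y i hi
        have h4 := hy2 i (jM b y) hij (by rw [hi, hjM1])
        have h5 : y i < y (jM b y) := lt_of_le_of_ne h3 h4
        unfold zc
        exact_mod_cast h5)
      (zc e)
      (by
        intro i _
        unfold zc
        have := (e i).2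
        constructor
        · positivity
        · exact_mod_cast this)
      (by
        unfold zc
        exact_mod_cast he2)
    have hZ : ∀ i ∈ Gr side b, bld k n (jm b y) (jM b y) (ix b ((ι : ℕ) : ℤ)) (zc y) (zc e) i =
        Z ι y e i := by
      intro i hi
      rw [mem_Gr] at hi
      simp only [Z]
      rw [hi]
    refine ⟨?_, Rel_congr _ _ _ _ _ _ _ hZ hbu.2⟩
    intro i hi
    rw [← hZ i hi]
    exact hbu.1 i hi
  have hf : ∀ (ι : Fin k) (y : Fin d → Fin n) (e : Fin d → Fin k), y ∈ gen side A →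
      e ∈ Es k hk (jm true y) (jm false y) → zc (f ⟨(ι, y), e⟩) = Z ι y e := by
    intro ι y e hy he
    funext i
    obtain ⟨h3, h4⟩ := (hmain ι y e hy he (side i)).1 i ((mem_Gr side _ i).mpr rfl)
    have h5 : (Z ι y e i).toNat < k * n := by
      have : (((Z ι y e i).toNat : ℕ) : ℤ) < ((k * n : ℕ) : ℤ) := by
        rw [Int.toNat_of_nonneg h3]
        push_cast
        exact h4
      exact_mod_cast this
    show (((Z ι y e i).toNat % (k * n) : ℕ) : ℤ) = Z ι y e i
    rw [Nat.mod_eq_of_lt h5, Int.toNat_of_nonneg h3]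
  rw [← hcard]
  apply Finset.card_le_card_of_injOn f
  · rintro ⟨⟨ι, y⟩, e⟩ ht
    have ht' : ⟨(ι, y), e⟩ ∈ S := ht
    rw [Finset.mem_sigma, Finset.mem_product] at ht'
    obtain ⟨⟨_, hy⟩, he⟩ := ht'
    simp only at hy he
    have hyA : y ∈ A := by
      unfold gen at hy
      rw [Finset.mem_filter] at hy
      exact hy.1
    rw [Finset.mem_coe]
    unfold big
    rw [Finset.mem_filter]
    refine ⟨Finset.mem_univ _, (ι : ℕ), ι.2, y, hyA, ?_, ?_⟩
    · rw [hf ι y e hy he]
      have := (hmain ι y e hy he true).2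
      simpa [ix] using this
    · rw [hf ι y e hy he]
      have := (hmain ι y e hy he false).2
      simpa [ix] using this
  · rintro ⟨⟨ι, y⟩, e⟩ ht ⟨⟨ι', y'⟩, e'⟩ ht' hff
    have ht2 : ⟨(ι, y), e⟩ ∈ S := ht
    have ht2' : ⟨(ι', y'), e'⟩ ∈ S := ht'
    rw [Finset.mem_sigma, Finset.mem_product] at ht2 ht2'
    obtain ⟨⟨_, hy⟩, he⟩ := ht2
    obtain ⟨⟨_, hy'⟩, he'⟩ := ht2'
    simp only at hy he hy' he'
    have hZZ : Z ι y e = Z ι' y' e' := by
      rw [← hf ι y e hy he, ← hf ι' y' e' hy' he', hff]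
    have hR := (hmain ι y e hy he true).2
    have hR' := (hmain ι' y' e' hy' he' true).2
    rw [← hZZ] at hR'
    have hle1 := H1 k n hkz hnz _ _ _ (hix true ι).1 (hix true ι).2 (hix true ι').1
      (hix true ι').2 _ _ _ _ hR hR' (fun i _ => le_rfl)
    have hle2 := H1 k n hkz hnz _ _ _ (hix true ι').1 (hix true ι').2 (hix true ι).1
      (hix true ι).2 _ _ _ _ hR' hR (fun i _ => le_rfl)
    have hιι : ι = ι' := by
      have h3 : ((ι : ℕ) : ℤ) = ((ι' : ℕ) : ℤ) := by
        have h4 : ix true ((ι : ℕ) : ℤ) = ix true ((ι' : ℕ) : ℤ) := le_antisymm hle1 hle2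
        simpa [ix] using h4
      apply Fin.ext
      exact_mod_cast h3
    subst hιι
    have hyy : y = y' := by
      funext i
      have hRi := (hmain ι y e hy he (side i)).2
      have hRi' := (hmain ι y' e' hy' he' (side i)).2
      rw [← hZZ] at hRi'
      have h3 := H2 k n hkz hnz _ _ (hix (side i) ι).1 (hix (side i) ι).2 _ _ _ _ 0 le_rfl
        hRi hRi' (fun i _ => by rw [add_zero]) i ((mem_Gr side _ i).mpr rfl)
      have h4 := H2 k n hkz hnz _ _ (hix (side i) ι).1 (hix (side i) ι).2 _ _ _ _ 0 le_rfl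
        hRi' hRi (fun i _ => by rw [add_zero]) i ((mem_Gr side _ i).mpr rfl)
      rw [add_zero] at h3 h4
      have h5 := le_antisymm h3 h4
      unfold zc at h5
      apply Fin.ext
      exact_mod_cast h5
    subst hyy
    have hee : e = e' := by
      funext i
      have hrange : ∀ (e : Fin d → Fin k) (j : Fin d), 0 ≤ zc e j ∧ zc e j < k := by
        intro e j
        unfold zc
        have := (e j).2
        constructor
        · positivity
        · exact_mod_cast this
      have hz0 : ∀ (e : Fin d → Fin k), e ∈ Es k hk (jm true y) (jm false y) → ∀ b,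
          zc e (jm b y) = 0 := by
        intro e he b
        have := mem_Es k hk _ _ e he
        unfold zc
        cases b
        · exact_mod_cast this.2
        · exact_mod_cast this.1
      have h3 := Hi k n hkz (Gr side (side i)) (jm (side i) y) (jM (side i) y)
        ((mem_Gr side _ _).mpr (hjm1 _ y)) ((mem_Gr side _ _).mpr (hjM1 _ y))
        (ix (side i) ((ι : ℕ) : ℤ)) (zc y) (zc e) (zc e') (fun j _ => hrange e j)
        (fun j _ => hrange e' j) (hz0 e he (side i)) (hz0 e' he' (side i))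
        (by
          intro j hj
          rw [mem_Gr] at hj
          have h4 := congrFun hZZ j
          simp only [Z] at h4
          rw [hj] at h4
          exact h4) i ((mem_Gr side _ i).mpr rfl)
      unfold zc at h3
      apply Fin.ext
      exact_mod_cast h3
    subst hee
    rfl

end Pool.Agent.R612.TG
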