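import Pool.Agent.R612.TG.Defs

/-! TG-CONN (helper611) -/

set_option autoImplicit false

namespace Pool.Agent.R612.TG

theorem conn_or (K : Bool → ℕ) (Q : Finset ((b : Bool) → Fin (K b))) :
    Conn K Q ∨ Conn K (Q.image fun q b => if b then (q b).rev else q b) := by
  by_cases hC : Conn K Q
  · exact Or.inl hC
  right
  unfold Conn at hC
  push_neg at hC
  obtain ⟨c, hc, p0, hp0, q0, hq0, hne⟩ := hC
  set f : ((b : Bool) → Fin (K b)) → ((b : Bool) → Fin (K b)) :=
    fun q b => if b then (q b).rev else q b with hf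
  have hft : ∀ q, f q true = (q true).rev := fun q => rfl
  have hff : ∀ q, f q false = q false := fun q => rfl
  intro c' hc'
  have key : ∀ p ∈ Q, ∀ q ∈ Q, c p ≠ c q → c' (f p) = c' (f q) := by
    intro p hp q hq hpq
    have hmp : f p ∈ Q.image f := Finset.mem_image_of_mem f hp
    have hmq : f q ∈ Q.image f := Finset.mem_image_of_mem f hq
    have h1 : ¬ p ≤ q := fun h => hpq (hc p hp q hq h)
    have h2 : ¬ q ≤ p := fun h => hpq (hc q hq p hp h).symm
    rw [Pi.le_def] at h1 h2
    rw [Bool.forall_bool] at h1 h2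
    rcases le_total (p false) (q false) with a | a
    · have b : q true ≤ p true := by
        rcases le_total (p true) (q true) with b | b
        · exact absurd ⟨a, b⟩ h1
        · exact b
      apply hc' _ hmp _ hmq
      rw [Pi.le_def, Bool.forall_bool]
      exact ⟨a, by rw [hft, hft]; exact Fin.rev_le_rev.2 b⟩
    · have b : p true ≤ q true := by
        rcases le_total (q true) (p true) with b | b
        · exact absurd ⟨a, b⟩ h2
        · exact b
      symm
      apply hc' _ hmq _ hmp
      rw [Pi.le_def, Bool.forall_bool]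
      exact ⟨a, by rw [hft, hft]; exact Fin.rev_le_rev.2 b⟩
  intro p' hp' q' hq'
  obtain ⟨p, hp, rfl⟩ := Finset.mem_image.1 hp'
  obtain ⟨q, hq, rfl⟩ := Finset.mem_image.1 hq'
  by_cases h : c p = c q
  · obtain ⟨r, hr, hrp⟩ : ∃ r ∈ Q, c p ≠ c r := by
      by_cases h1 : c p = c p0
      · exact ⟨q0, hq0, fun h2 => hne (h1.symm.trans h2)⟩
      · exact ⟨p0, hp0, h1⟩
    have e1 := key p hp r hr hrp
    have e2 := key q hq r hr (h ▸ hrp)
    exact e1.trans e2.symm
  · exact key p hp q hq h

end Pool.Agent.R612.TG
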