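import Pool.Agent.R612.TG.Defs

/-! TG-EX: basic facts on the extremal function. -/

set_option autoImplicit false

namespace Pool.Agent.R612.TG

variable {d : ℕ}

theorem ex_bdd (k : Fin d → ℕ) (P : Finset ((i : Fin d) → Fin (k i))) (n : ℕ) :
    BddAbove {m : ℕ | ∃ A : Finset (Fin d → Fin n), A.card = m ∧ Avoids k P A} := by
  refine ⟨Fintype.card (Fin d → Fin n), ?_⟩
  rintro m ⟨A, rfl, _⟩
  exact Finset.card_le_univ A

theorem ex_le (k : Fin d → ℕ) (P : Finset ((i : Fin d) → Fin (k i))) (n : ℕ)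
    (A : Finset (Fin d → Fin n)) (hA : Avoids k P A) : A.card ≤ ex k P n :=
  le_csSup (ex_bdd k P n) ⟨A, rfl, hA⟩

theorem ex_att (k : Fin d → ℕ) (P : Finset ((i : Fin d) → Fin (k i))) (hP : P.Nonempty) (n : ℕ) :
    ∃ A : Finset (Fin d → Fin n), A.card = ex k P n ∧ Avoids k P A := by
  have hne : {m : ℕ | ∃ A : Finset (Fin d → Fin n), A.card = m ∧ Avoids k P A}.Nonempty := by
    refine ⟨0, ∅, rfl, ?_⟩
    rintro ⟨φ, hφ⟩
    obtain ⟨x, hx⟩ := hP
    exact absurd (hφ x hx) (Finset.notMem_empty _)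
  exact Nat.sSup_mem hne (ex_bdd k P n)

theorem ex_mono (side : Fin d → Bool) (K : Bool → ℕ) (Q : Finset ((b : Bool) → Fin (K b)))
    (hQ : Trim K Q) (n : ℕ) :
    ex (fun i => K (side i)) (dup side K Q) n ≤
      ex (fun i => K (side i)) (dup side K Q) (n + 1) := by
  classical
  have hP : (dup side K Q).Nonempty := by
    obtain ⟨q, hq, _⟩ := (hQ true).1
    exact ⟨_, Finset.mem_image_of_mem _ hq⟩
  obtain ⟨A, hA1, hA2⟩ := ex_att (fun i => K (side i)) (dup side K Q) hP n
  rw [← hA1]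
  have hinj : Function.Injective (fun (x : Fin d → Fin n) (i : Fin d) => (x i).castSucc) := by
    intro x y hxy
    funext i
    exact Fin.castSucc_injective n (congrFun hxy i)
  have hcard : (A.image (fun (x : Fin d → Fin n) (i : Fin d) => (x i).castSucc)).card = A.card :=
    Finset.card_image_of_injective _ hinj
  rw [← hcard]
  apply ex_le
  rintro ⟨φ', hφ'⟩
  have hlt : ∀ (i : Fin d) (j : Fin (K (side i))), ((φ' i j : Fin (n + 1)) : ℕ) < n := by
    intro i j
    obtain ⟨q, hq, hqK⟩ := (hQ (side i)).2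
    have h1 := hφ' (fun i => q (side i)) (Finset.mem_image_of_mem _ hq)
    obtain ⟨a, _, ha⟩ := Finset.mem_image.mp h1
    have h2 : (a i).castSucc = φ' i (q (side i)) := congrFun ha i
    have h3 : j ≤ q (side i) := by
      rw [Fin.le_def]
      have := j.2
      omega
    have h4 : φ' i j ≤ φ' i (q (side i)) := (φ' i).monotone h3
    rw [← h2, Fin.le_def] at h4
    have h5 := (a i).2
    simp only [Fin.val_castSucc] at h4
    omega
  apply hA2
  refine ⟨fun i => OrderEmbedding.ofStrictMono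
    (fun j => (⟨((φ' i j : Fin (n + 1)) : ℕ), hlt i j⟩ : Fin n)) ?_, ?_⟩
  · intro j j' hjj
    exact Fin.lt_def.mpr (Fin.lt_def.mp ((φ' i).strictMono hjj))
  · intro x hx
    obtain ⟨a, haA, ha⟩ := Finset.mem_image.mp (hφ' x hx)
    have : a = fun i => (⟨((φ' i (x i) : Fin (n + 1)) : ℕ), hlt i (x i)⟩ : Fin n) := by
      funext i
      apply Fin.ext
      have h2 : (a i).castSucc = φ' i (x i) := congrFun ha i
      exact congrArg (fun z : Fin (n + 1) => (z : ℕ)) h2
    rw [this] at haA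
    exact haA

end Pool.Agent.R612.TG
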