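import Pool.Agent.R612.TG.Defs

/-! TG-LIM: convergence from the near-supermultiplicative inequality. -/

set_option autoImplicit false

namespace Pool.Agent.R612.TG

open Filter Topology

theorem lim (p C : ℕ) (hp : 0 < p) (F : ℕ → ℕ) (hF : Monotone F)
    (h : ∀ k n : ℕ, 0 < k → 0 < n → k ^ p * (n * F n) ≤ n * F (k * n) + k ^ p * (C * F n)) :
    ∃ L : ENNReal, Tendsto (fun n : ℕ => ((F n : ℕ) : ENNReal) / ((n : ENNReal) ^ p)) atTop (nhds L) := by
  obtain ⟨G, hG⟩ : ∃ G : ℕ → ℝ, ∀ n, G n = (F n : ℝ) / (n : ℝ) ^ p := ⟨_, fun _ => rfl⟩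
  have hG0 : ∀ n, 0 ≤ G n := fun n => by
    rw [hG]
    positivity
  have hcongr : (fun n : ℕ => ((F n : ℕ) : ENNReal) / ((n : ENNReal) ^ p)) =ᶠ[atTop]
      fun n => ENNReal.ofReal (G n) := by
    filter_upwards [eventually_ge_atTop 1] with n hn
    have hn' : (0:ℝ) < n := by exact_mod_cast hn
    rw [hG, ENNReal.ofReal_div_of_pos (by positivity), ENNReal.ofReal_natCast,
      ENNReal.ofReal_pow hn'.le, ENNReal.ofReal_natCast]
  -- the key inequality
  have key : ∀ n N : ℕ, 0 < n → C < n → n ≤ N →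
      (1 - (n:ℝ) / N) ^ p * ((1 - (C:ℝ) / n) * G n) ≤ G N := by
    intro n N hn hC hN
    have hn' : (0:ℝ) < n := by exact_mod_cast hn
    have hN' : (0:ℝ) < N := by exact_mod_cast lt_of_lt_of_le hn hN
    have hnN : (n:ℝ) ≤ N := by exact_mod_cast hN
    have hk : 0 < N / n := Nat.div_pos hN hn
    have h1 := h (N / n) n hk hn
    have h2 : F (N / n * n) ≤ F N := hF (Nat.div_mul_le_self N n)
    have h3 : (N / n) ^ p * (n * F n) ≤ n * F N + (N / n) ^ p * (C * F n) :=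
      h1.trans (Nat.add_le_add_right (Nat.mul_le_mul_left _ h2) _)
    have h4 : (((N / n : ℕ) : ℝ)) ^ p * (n * F n) ≤ n * F N + ((N / n : ℕ) : ℝ) ^ p * (C * F n) := by
      exact_mod_cast h3
    have h5 : ((N:ℝ) - n) / n ≤ ((N / n : ℕ) : ℝ) := by
      rw [div_le_iff₀ hn']
      have h6 : N < (N / n + 1) * n := by
        have := Nat.lt_div_mul_add hn (a := N)
        rw [add_mul, one_mul]
        exact this
      have h7 : (N:ℝ) < (((N / n : ℕ) : ℝ) + 1) * n := by exact_mod_cast h6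
      linarith
    have h5' : 0 ≤ ((N:ℝ) - n) / n := div_nonneg (by linarith) hn'.le
    have h6 : (((N:ℝ) - n) / n) ^ p ≤ ((N / n : ℕ) : ℝ) ^ p := pow_le_pow_left₀ h5' h5 p
    have hCn : (0:ℝ) ≤ n - C := by
      have : (C:ℝ) < n := by exact_mod_cast hC
      linarith
    have h7 : (((N:ℝ) - n) / n) ^ p * ((n - C) * F n) ≤ n * F N := by
      have := mul_le_mul_of_nonneg_right h6 (show (0:ℝ) ≤ (n - C) * F n by positivity)
      linarith
    have h8 : (1 - (n:ℝ) / N) ^ p * ((1 - (C:ℝ) / n) * G n) =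
        (((N:ℝ) - n) / n) ^ p * ((n - C) * F n) / (n * (N:ℝ) ^ p) := by
      rw [hG]
      have e1 : 1 - (n:ℝ) / N = (N - n) / N := by field_simp
      have e2 : 1 - (C:ℝ) / n = (n - C) / n := by field_simp
      rw [e1, e2, div_pow, div_pow]
      field_simp
    rw [h8, hG, div_le_div_iff₀ (by positivity) (by positivity)]
    have h9 := mul_le_mul_of_nonneg_right h7 (show (0:ℝ) ≤ (N:ℝ) ^ p by positivity)
    linarith
  obtain ⟨L, hL⟩ : ∃ L : ENNReal, L = liminf (fun n => ENNReal.ofReal (G n)) atTop := ⟨_, rfl⟩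
  have hlow : ∀ n : ℕ, 0 < n → C < n → ENNReal.ofReal ((1 - (C:ℝ) / n) * G n) ≤ L := by
    intro n hn hC
    have hn' : (0:ℝ) < n := by exact_mod_cast hn
    have ht : Tendsto (fun N : ℕ => ENNReal.ofReal ((1 - (n:ℝ) / N) ^ p * ((1 - (C:ℝ) / n) * G n)))
        atTop (𝓝 (ENNReal.ofReal ((1 - (C:ℝ) / n) * G n))) := by
      refine ENNReal.tendsto_ofReal ?_
      have h1 : Tendsto (fun N : ℕ => (1 - (n:ℝ) / N) ^ p * ((1 - (C:ℝ) / n) * G n)) atTop
          (𝓝 ((1 - 0) ^ p * ((1 - (C:ℝ) / n) * G n))) :=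
        ((tendsto_const_nhds.sub (tendsto_const_div_atTop_nhds_zero_nat (n:ℝ))).pow p).mul_const _
      simpa using h1
    rw [hL, ← ht.liminf_eq]
    refine liminf_le_liminf ?_
    filter_upwards [eventually_ge_atTop n] with N hN
    exact ENNReal.ofReal_le_ofReal (key n N hn hC hN)
  refine ⟨L, Tendsto.congr' hcongr.symm (tendsto_of_le_liminf_of_limsup_le hL.le ?_)⟩
  rcases eq_or_ne L ⊤ with hT | hT
  · rw [hT]
    exact le_top
  have ht : Tendsto (fun n : ℕ => ENNReal.ofReal (L.toReal * (1 - (C:ℝ) / n)⁻¹)) atTop (𝓝 L) := by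
    have h1 : Tendsto (fun n : ℕ => L.toReal * (1 - (C:ℝ) / n)⁻¹) atTop
        (𝓝 (L.toReal * (1 - 0)⁻¹)) :=
      ((tendsto_const_nhds.sub (tendsto_const_div_atTop_nhds_zero_nat (C:ℝ))).inv₀
        (by norm_num)).const_mul _
    have h2 := ENNReal.tendsto_ofReal h1
    simpa [ENNReal.ofReal_toReal hT] using h2
  rw [← ht.limsup_eq]
  refine limsup_le_limsup ?_
  filter_upwards [eventually_gt_atTop C] with n hn
  have hn0 : 0 < n := by omega
  have hn' : (0:ℝ) < n := by exact_mod_cast hn0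
  have hpos : 0 < 1 - (C:ℝ) / n := by
    rw [sub_pos, div_lt_one hn']
    exact_mod_cast hn
  refine ENNReal.ofReal_le_ofReal ?_
  rw [← div_eq_mul_inv, le_div_iff₀ hpos, mul_comm]
  exact (ENNReal.ofReal_le_iff_le_toReal hT).1 (hlow n hn0 hn)

end Pool.Agent.R612.TG
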