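import Pool.Agent.R612.TG.Defs

/-! TG-REL: monotonicity of the twisted block index. -/

set_option autoImplicit false

namespace Pool.Agent.R612.TG

variable {d : ℕ}

theorem mono1 (k n : ℤ) (hk : 0 < k) (hn : 0 < n) (G : Finset (Fin d)) (ι ι' : ℤ)
    (h0 : 0 ≤ ι) (h1 : ι < k) (h0' : 0 ≤ ι') (h1' : ι' < k) (Y y Y' y' : Fin d → ℤ)
    (h : Rel k n G ι Y y) (h' : Rel k n G ι' Y' y') (hY : ∀ i ∈ G, Y i ≤ Y' i) : ι ≤ ι' := by
  obtain ⟨T, M, hT, ⟨a, ha, haT⟩, hM, ⟨b, hb, hbM⟩, hr⟩ := h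
  obtain ⟨T', M', hT', ⟨a', ha', haT'⟩, hM', ⟨b', hb', hbM'⟩, hr'⟩ := h'
  have hTT : T ≤ T' := by
    have e1 := hT a' ha'
    have e2 := hY a' ha'
    omega
  have hMM : M ≤ M' := by
    have e1 := hY b hb
    have e2 := hM' b hb
    omega
  obtain ⟨p1, -, p3, -⟩ := hr a ha
  obtain ⟨q1, -, q3, -⟩ := hr' a' ha'
  obtain ⟨-, r2, -, r4⟩ := hr' b' hb'
  rw [haT] at p3
  rw [haT'] at q3
  rw [hbM'] at r4
  have s1 : 0 ≤ k * T' + ι * (M' - T' - k * n) := by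
    have e1 : 0 ≤ k * y a := mul_nonneg hk.le p1
    have e2 : 0 ≤ (k - ι) * (T' - T) := mul_nonneg (by omega) (by omega)
    have e3 : 0 ≤ ι * (M' - M) := mul_nonneg h0 (by omega)
    nlinarith
  have s2 : 0 ≤ k * T' + ι' * (M' - T' - k * n) := by
    have e1 : 0 ≤ k * y' a' := mul_nonneg hk.le q1
    nlinarith
  have s3 : k * T' + (ι' + 1) * (M' - T' - k * n) < 0 := by
    have e1 : 0 ≤ k * (n - 1 - y' b') := mul_nonneg hk.le (by omega)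
    nlinarith
  by_contra hc
  have s4 : M' - T' - k * n < 0 := by nlinarith
  have s5 : 0 ≤ (ι - ι' - 1) * (-(M' - T' - k * n)) := mul_nonneg (by omega) (by omega)
  nlinarith

theorem mono2 (k n : ℤ) (hk : 0 < k) (hn : 0 < n) (G : Finset (Fin d)) (ι : ℤ)
    (h0 : 0 ≤ ι) (h1 : ι < k) (Y y Y' y' : Fin d → ℤ) (g : ℤ) (hg : 0 ≤ g)
    (h : Rel k n G ι Y y) (h' : Rel k n G ι Y' y') (hY : ∀ i ∈ G, Y i + g ≤ Y' i) :
    ∀ i ∈ G, y i + g ≤ y' i := by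
  obtain ⟨T, M, hT, ⟨a, ha, haT⟩, hM, ⟨b, hb, hbM⟩, hr⟩ := h
  obtain ⟨T', M', hT', ⟨a', ha', haT'⟩, hM', ⟨b', hb', hbM'⟩, hr'⟩ := h'
  have hTT : T + g ≤ T' := by
    have e1 := hT a' ha'
    have e2 := hY a' ha'
    omega
  have hMM : M + g ≤ M' := by
    have e1 := hY b hb
    have e2 := hM' b hb
    omega
  intro i hi
  obtain ⟨-, -, p3, -⟩ := hr i hi
  obtain ⟨-, -, -, q4⟩ := hr' i hi
  have e0 := hY i hi
  have e2 : 0 ≤ (k - ι - 1) * (T' - T - g) := mul_nonneg (by omega) (by omega)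
  have e3 : 0 ≤ ι * (M' - M - g) := mul_nonneg h0 (by omega)
  have e4 : k * (y i + g) < k * (y' i + 1) := by nlinarith
  have e5 : y i + g < y' i + 1 := lt_of_mul_lt_mul_left e4 hk.le
  omega

end Pool.Agent.R612.TG
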