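import Pool.Agent.R612.TG.Defs

/-! TG-REV: invariance of the extremal function under reversal of coordinates. -/

set_option autoImplicit false

namespace Pool.Agent.R612.TG

variable {d : ℕ}

namespace REVaux

/-- reversal of coordinates of a point -/
def fl {n : ℕ} (rev : Fin d → Bool) (x : Fin d → Fin n) : Fin d → Fin n :=
  fun i => if rev i then (x i).rev else x i

theorem fl_fl {n : ℕ} (rev : Fin d → Bool) (x : Fin d → Fin n) : fl rev (fl rev x) = x := by
  funext i
  unfold fl
  by_cases h : rev i <;> simp [h]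

theorem fl_inj {n : ℕ} (rev : Fin d → Bool) : Function.Injective (fl (n := n) rev) := by
  intro x y h
  rw [← fl_fl rev x, h, fl_fl]

theorem flipP_flipP (k : Fin d → ℕ) (rev : Fin d → Bool) (P : Finset ((i : Fin d) → Fin (k i))) :
    flipP k rev (flipP k rev P) = P := by
  unfold flipP
  rw [Finset.image_image]
  have : ((fun (x : (i : Fin d) → Fin (k i)) i => if rev i then (x i).rev else x i) ∘
      fun (x : (i : Fin d) → Fin (k i)) i => if rev i then (x i).rev else x i) = id := by
    funext x i
    by_cases h : rev i <;> simp [h]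
  rw [this, Finset.image_id]

/-- conjugate of an embedding by the reversal -/
theorem emb {a n : ℕ} (b : Bool) (φ : Fin a ↪o Fin n) :
    ∃ ψ : Fin a ↪o Fin n, ∀ x, ψ x = if b then (φ x.rev).rev else φ x := by
  cases b with
  | false => exact ⟨φ, fun x => by simp⟩
  | true =>
    have hm : StrictMono (fun x : Fin a => (φ x.rev).rev) := by
      intro x y hxy
      have h1 : y.rev < x.rev := Fin.rev_lt_rev.2 hxy
      have h2 : φ y.rev < φ x.rev := φ.strictMono h1
      exact Fin.rev_lt_rev.2 h2
    exact ⟨OrderEmbedding.ofStrictMono _ hm, fun x => rfl⟩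

theorem avoids_flip (k : Fin d → ℕ) (rev : Fin d → Bool) (P : Finset ((i : Fin d) → Fin (k i)))
    {n : ℕ} (A : Finset (Fin d → Fin n)) (h : Avoids k P A) :
    Avoids k (flipP k rev P) (A.image (fl rev)) := by
  rintro ⟨φ, hφ⟩
  apply h
  choose ψ hψ using fun i => emb (rev i) (φ i)
  refine ⟨ψ, ?_⟩
  intro x hx
  have h1 := hφ (fun i => if rev i then (x i).rev else x i) (Finset.mem_image_of_mem _ hx)
  obtain ⟨a, ha, he⟩ := Finset.mem_image.1 h1
  have h2 : (fun i => ψ i (x i)) = a := by
    rw [← fl_fl rev a, he]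
    funext i
    rw [hψ]
    unfold fl
    by_cases hr : rev i <;> simp [hr]
  rw [h2]
  exact ha

theorem le_sets (k : Fin d → ℕ) (rev : Fin d → Bool) (P : Finset ((i : Fin d) → Fin (k i)))
    (n : ℕ) : {m : ℕ | ∃ A : Finset (Fin d → Fin n), A.card = m ∧ Avoids k P A} ⊆
      {m : ℕ | ∃ A : Finset (Fin d → Fin n), A.card = m ∧ Avoids k (flipP k rev P) A} := by
  rintro m ⟨A, hA, hav⟩
  refine ⟨A.image (fl rev), ?_, avoids_flip k rev P A hav⟩
  rw [Finset.card_image_of_injective _ (fl_inj rev), hA]

end REVaux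

-- TG-REV
theorem ex_flip (k : Fin d → ℕ) (rev : Fin d → Bool) (P : Finset ((i : Fin d) → Fin (k i)))
    (n : ℕ) : ex k (flipP k rev P) n = ex k P n := by
  unfold ex
  congr 1
  apply Set.Subset.antisymm
  · have h := REVaux.le_sets k rev (flipP k rev P) n
    rw [REVaux.flipP_flipP] at h
    exact h
  · exact REVaux.le_sets k rev P n

end Pool.Agent.R612.TG
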