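import Pool.Agent.R612.TG.Defs

/-! Piece TIE of project TG (MP_2bee9d_co): the bound on points with ties. -/

set_option autoImplicit false

namespace Pool.Agent.R612.TG

variable {d : ℕ}

private lemma card_le_ex (k : Fin d → ℕ) (P : Finset ((i : Fin d) → Fin (k i))) (n : ℕ)
    (A : Finset (Fin d → Fin n)) (hA : Avoids k P A) : A.card ≤ ex k P n := by
  apply le_csSup
  · refine ⟨Fintype.card (Fin d → Fin n), ?_⟩
    rintro m ⟨B, rfl, -⟩
    exact Finset.card_le_univ B
  · exact ⟨A, rfl, hA⟩

/-- transport of an embedding along an equality of the sides -/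
private def tr {K : Bool → ℕ} {n : ℕ} {a b : Bool} (h : a = b) (f : Fin (K a) ↪o Fin n) :
    Fin (K b) ↪o Fin n := h ▸ f

private lemma tr_apply {K : Bool → ℕ} {n : ℕ} {a b : Bool} (h : a = b) (f : Fin (K a) ↪o Fin n)
    (q : (b : Bool) → Fin (K b)) : tr h f (q b) = f (q a) := by
  subst h
  rfl

open Classical in
private lemma pair_bound (side : Fin d → Bool) (K : Bool → ℕ) (Q : Finset ((b : Bool) → Fin (K b)))
    (n : ℕ) (A : Finset (Fin d → Fin n)) (hA : Avoids (fun i => K (side i)) (dup side K Q) A)
    (i j : Fin d) (hij : i ≠ j) (hs : side i = side j) :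
    n * (A.filter fun x => x i = x j).card ≤ ex (fun i => K (side i)) (dup side K Q) n := by
  set B := A.filter fun x => x i = x j with hB
  set Bh : Finset (Fin d → Fin n) :=
    (B ×ˢ (Finset.univ : Finset (Fin n))).image fun p => Function.update p.1 j p.2 with hBh
  have hcard : Bh.card = n * B.card := by
    rw [hBh, Finset.card_image_of_injOn]
    · rw [Finset.card_product, Finset.card_univ, Fintype.card_fin, mul_comm]
    · rintro ⟨x, t⟩ hx ⟨y, s⟩ hy hxy
      simp only [Finset.coe_product, Set.mem_prod, Finset.mem_coe, hB, Finset.mem_filter] at hx hy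
      have hxy' : Function.update x j t = Function.update y j s := hxy
      have h1 : t = s := by
        have := congrFun hxy' j
        simpa using this
      have h2 : ∀ l, l ≠ j → x l = y l := by
        intro l hl
        have := congrFun hxy' l
        simpa [Function.update_of_ne hl] using this
      have h3 : x = y := by
        funext l
        by_cases hl : l = j
        · rw [hl, ← hx.1.2, ← hy.1.2]
          exact h2 i hij
        · exact h2 l hl
      rw [h1, h3]
  rw [← hcard]
  apply card_le_ex
  rintro ⟨φ, hφ⟩
  apply hA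
  refine ⟨Function.update φ j (tr (K := K) hs (φ i)), ?_⟩
  intro z hz
  have hz' := hφ z hz
  obtain ⟨q, hq, rfl⟩ := Finset.mem_image.1 hz
  obtain ⟨⟨x, t⟩, hx, hxe⟩ := Finset.mem_image.1 hz'
  simp only [Finset.mem_product, hB, Finset.mem_filter, Finset.mem_univ, and_true] at hx
  have hxe' : ∀ l, Function.update x j t l = φ l (q (side l)) := fun l => congrFun hxe l
  have hfun : (fun l => (Function.update φ j (tr (K := K) hs (φ i))) l (q (side l))) = x := by
    funext l
    by_cases hl : l = j
    · subst hl
      rw [Function.update_self]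
      rw [tr_apply hs (φ i) q]
      have := hxe' i
      rw [Function.update_of_ne hij] at this
      rw [← this]
      exact hx.2
    · rw [Function.update_of_ne hl]
      have := hxe' l
      rw [Function.update_of_ne hl] at this
      exact this.symm
  rw [show (fun l => (Function.update φ j (tr (K := K) hs (φ i))) l
    ((fun i => q (side i)) l)) = x from hfun]
  exact hx.1

open Classical in
theorem tie (side : Fin d → Bool) (K : Bool → ℕ) (Q : Finset ((b : Bool) → Fin (K b)))
    (n : ℕ) (A : Finset (Fin d → Fin n)) (hA : Avoids (fun i => K (side i)) (dup side K Q) A) :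
    n * A.card ≤ n * (gen side A).card + d * d * ex (fun i => K (side i)) (dup side K Q) n := by
  set E := ex (fun i => K (side i)) (dup side K Q) n with hE
  let T : Fin d × Fin d → Finset (Fin d → Fin n) := fun p =>
    A.filter fun x => p.1 ≠ p.2 ∧ side p.1 = side p.2 ∧ x p.1 = x p.2
  have hT : ∀ p, n * (T p).card ≤ E := by
    rintro ⟨i, j⟩
    by_cases h : i ≠ j ∧ side i = side j
    · have h1 : T (i, j) = A.filter fun x => x i = x j := by
        apply Finset.filter_congr
        intro x _
        exact ⟨fun h' => h'.2.2, fun h' => ⟨h.1, h.2, h'⟩⟩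
      rw [h1]
      exact pair_bound side K Q n A hA i j h.1 h.2
    · have h1 : T (i, j) = ∅ := by
        apply Finset.filter_false_of_mem
        intro x _ h'
        exact h ⟨h'.1, h'.2.1⟩
      rw [h1]
      simp
  have hsub : A ⊆ gen side A ∪ (Finset.univ : Finset (Fin d × Fin d)).biUnion T := by
    intro x hx
    rw [Finset.mem_union]
    by_cases h : x ∈ gen side A
    · exact Or.inl h
    · right
      have h2 : ¬ ∀ i j, i ≠ j → side i = side j → x i ≠ x j := by
        intro h3
        exact h (Finset.mem_filter.2 ⟨hx, h3⟩)
      push Not at h2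
      obtain ⟨i, j, hij, hs, he⟩ := h2
      rw [Finset.mem_biUnion]
      exact ⟨(i, j), Finset.mem_univ _, Finset.mem_filter.2 ⟨hx, hij, hs, he⟩⟩
  have hc : A.card ≤ (gen side A).card + ∑ p : Fin d × Fin d, (T p).card :=
    (Finset.card_le_card hsub).trans ((Finset.card_union_le _ _).trans
      (Nat.add_le_add_left Finset.card_biUnion_le _))
  calc n * A.card ≤ n * ((gen side A).card + ∑ p : Fin d × Fin d, (T p).card) :=
        Nat.mul_le_mul_left n hc
    _ = n * (gen side A).card + ∑ p : Fin d × Fin d, n * (T p).card := by
        rw [Nat.mul_add, Finset.mul_sum]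
    _ ≤ n * (gen side A).card + ∑ _p : Fin d × Fin d, E :=
        Nat.add_le_add_left (Finset.sum_le_sum fun p _ => hT p) _
    _ = n * (gen side A).card + d * d * E := by
        rw [Finset.sum_const, Finset.card_univ, Fintype.card_prod, Fintype.card_fin, smul_eq_mul]

end Pool.Agent.R612.TG
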