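import Pool.Agent.R612.TG.EXT
import Pool.Agent.R612.TG.REL
import Pool.Agent.R612.TG.BLD
import Pool.Agent.R612.TG.EXB
import Pool.Agent.R612.TG.CNT
import Pool.Agent.R612.TG.AV
import Pool.Agent.R612.TG.LIM
import Pool.Agent.R612.TG.REV
import Pool.Agent.R612.TG.CONN
import Pool.Agent.R612.TG.TIE

set_option autoImplicit false

namespace Pool.Agent.R612.TG
open Filter

variable {d : ℕ}

theorem ineq (side : Fin d → Bool) (hs : ∀ b, ∃ i, side i = b) (K : Bool → ℕ)
    (Q : Finset ((b : Bool) → Fin (K b))) (hQ : Trim K Q) (hc : Conn K Q) (k n : ℕ) (hk : 0 < k)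
    (hn : 0 < n) :
    k ^ (d - 1) * (n * ex (fun i => K (side i)) (dup side K Q) n) ≤
      n * ex (fun i => K (side i)) (dup side K Q) (k * n) +
        k ^ (d - 1) * (d * d * ex (fun i => K (side i)) (dup side K Q) n) := by
  have hne : Q.Nonempty := by
    obtain ⟨⟨q, hq, _⟩, _⟩ := hQ true
    exact ⟨q, hq⟩
  have hdne : (dup side K Q).Nonempty := hne.image _
  obtain ⟨A, hAc, hA⟩ := ex_att (fun i => K (side i)) (dup side K Q) hdne n
  have h1 := tie side K Q n A hA
  have h2 := count_of (d := d) build bld_inj mono1 mono2 side hs k n hk hn A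
  have h3 := big_avoids (d := d) extend mono1 mono2 side hs K Q hQ hc k n hk hn A hA
  have h4 := ex_le _ _ _ _ h3
  rw [hAc] at h1
  calc k ^ (d - 1) * (n * ex (fun i => K (side i)) (dup side K Q) n)
      ≤ k ^ (d - 1) * (n * (gen side A).card + d * d * ex (fun i => K (side i)) (dup side K Q) n) :=
        Nat.mul_le_mul_left _ h1
    _ = n * (k ^ (d - 1) * (gen side A).card) +
          k ^ (d - 1) * (d * d * ex (fun i => K (side i)) (dup side K Q) n) := by ring
    _ ≤ _ := Nat.add_le_add_right (Nat.mul_le_mul_left _ (h2.trans h4)) _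

theorem two_le (side : Fin d → Bool) (hs : ∀ b, ∃ i, side i = b) : 0 < d - 1 := by
  obtain ⟨i, hi⟩ := hs true
  obtain ⟨j, hj⟩ := hs false
  have hij : i ≠ j := by rintro rfl; rw [hi] at hj; exact absurd hj (by simp)
  have := i.2
  have := j.2
  have : (i : ℕ) ≠ (j : ℕ) := fun h => hij (Fin.ext h)
  omega

theorem conv_conn (side : Fin d → Bool) (hs : ∀ b, ∃ i, side i = b) (K : Bool → ℕ)
    (Q : Finset ((b : Bool) → Fin (K b))) (hQ : Trim K Q) (hc : Conn K Q) :
    ∃ L : ENNReal, Tendsto (fun n : ℕ =>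
      ((ex (fun i => K (side i)) (dup side K Q) n : ℕ) : ENNReal) / ((n : ENNReal) ^ (d - 1)))
      atTop (nhds L) := by
  refine lim (d - 1) (d * d) (two_le side hs) _
    (monotone_nat_of_le_succ fun n => ex_mono side K Q hQ n) ?_
  intro k n hk hn
  exact ineq side hs K Q hQ hc k n hk hn

/-- `Q` with its first coordinate reversed -/
def revQ (K : Bool → ℕ) (Q : Finset ((b : Bool) → Fin (K b))) : Finset ((b : Bool) → Fin (K b)) :=
  Q.image fun q b => if b then (q b).rev else q b

theorem trim_rev (K : Bool → ℕ) (Q : Finset ((b : Bool) → Fin (K b))) (hQ : Trim K Q) :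
    Trim K (revQ K Q) := by
  intro b
  obtain ⟨⟨p, hp, hp0⟩, ⟨q, hq, hq0⟩⟩ := hQ b
  cases b with
  | false =>
    refine ⟨⟨_, Finset.mem_image_of_mem _ hp, ?_⟩, ⟨_, Finset.mem_image_of_mem _ hq, ?_⟩⟩
    · simpa using hp0
    · simpa using hq0
  | true =>
    refine ⟨⟨_, Finset.mem_image_of_mem _ hq, ?_⟩, ⟨_, Finset.mem_image_of_mem _ hp, ?_⟩⟩
    · simp only [if_true, Fin.val_rev]; omega
    · simp only [if_true, Fin.val_rev]; have := (p true).2; omega

theorem dup_rev (side : Fin d → Bool) (K : Bool → ℕ) (Q : Finset ((b : Bool) → Fin (K b))) :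
    dup side K Q = flipP (fun i => K (side i)) side (dup side K (revQ K Q)) := by
  unfold flipP dup revQ
  rw [Finset.image_image, Finset.image_image]
  congr 1
  funext q i
  simp only [Function.comp]
  by_cases h : side i = true
  · simp [h]
  · simp [h]

theorem conv (side : Fin d → Bool) (hs : ∀ b, ∃ i, side i = b) (K : Bool → ℕ)
    (Q : Finset ((b : Bool) → Fin (K b))) (hQ : Trim K Q) :
    ∃ L : ENNReal, Tendsto (fun n : ℕ =>
      ((ex (fun i => K (side i)) (dup side K Q) n : ℕ) : ENNReal) / ((n : ENNReal) ^ (d - 1)))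
      atTop (nhds L) := by
  rcases conn_or K Q with h | h
  · exact conv_conn side hs K Q hQ h
  · obtain ⟨L, hL⟩ := conv_conn side hs K (revQ K Q) (trim_rev K Q hQ) h
    refine ⟨L, ?_⟩
    rw [dup_rev]
    simp only [ex_flip]
    exact hL

end Pool.Agent.R612.TG
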