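import Pool.Agent.R612.TG.Defs2

/-! TU-LIM: the limit with boundary terms. -/

set_option autoImplicit false

namespace Pool.Agent.R612.TG

open Filter

theorem untrim_aux_prod {ι : Type} (T : Finset ι) (s : ι → ℕ) :
    Tendsto (fun n : ℕ => (n : ℝ) * (1 - ∏ i ∈ T, (1 - (s i : ℝ) / n))) atTop
      (nhds (∑ i ∈ T, (s i : ℝ))) := by
  classical
  induction T using Finset.induction_on with
  | empty => simp
  | insert a T ha ih =>
    have hP : Tendsto (fun n : ℕ => ∏ i ∈ T, (1 - (s i : ℝ) / n)) atTop (nhds 1) := by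
      have := tendsto_finsetProd (f := fun i (n : ℕ) => (1 - (s i : ℝ) / n)) (x := atTop)
        (a := fun _ => (1 : ℝ)) T (fun i _ => by
          have := (tendsto_const_div_atTop_nhds_zero_nat (s i : ℝ)).const_sub 1
          simpa using this)
      simpa using this
    have h := ih.add (hP.const_mul (s a : ℝ))
    rw [Finset.sum_insert ha, add_comm]
    simp only [mul_one] at h
    refine h.congr' ?_
    filter_upwards [eventually_gt_atTop 0] with n hn
    rw [Finset.prod_insert ha]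
    have : (n : ℝ) ≠ 0 := by positivity
    field_simp
    ring

theorem untrim_aux_b {d : ℕ} (hd : 0 < d) (s : Fin d → ℕ) (t : ℕ) (ht : ∀ i, s i ≤ t) :
    Tendsto (fun n : ℕ => ((n ^ d - ∏ i, (n - s i) : ℕ) : ENNReal) / ((n : ENNReal) ^ (d - 1)))
      atTop (nhds (∑ i, (s i : ENNReal))) := by
  have h := untrim_aux_prod (Finset.univ : Finset (Fin d)) s
  have h2 := (ENNReal.continuous_ofReal.tendsto _).comp h
  have e : ENNReal.ofReal (∑ i, (s i : ℝ)) = ∑ i, (s i : ENNReal) := by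
    rw [ENNReal.ofReal_sum_of_nonneg (fun i _ => Nat.cast_nonneg _)]
    exact Finset.sum_congr rfl fun i _ => ENNReal.ofReal_natCast _
  rw [e] at h2
  refine h2.congr' ?_
  filter_upwards [eventually_gt_atTop 0, eventually_ge_atTop t] with n hn hnt
  have hn' : (0 : ℝ) < n := by exact_mod_cast hn
  have hle : ∏ i, (n - s i) ≤ n ^ d := by
    calc ∏ i, (n - s i) ≤ ∏ _i : Fin d, n := Finset.prod_le_prod' fun i _ => Nat.sub_le _ _
      _ = n ^ d := by simp
  have hprod : ((∏ i, (n - s i) : ℕ) : ℝ) = (n : ℝ) ^ d * ∏ i, (1 - (s i : ℝ) / n) := by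
    have h1 : (n : ℝ) ^ d = ∏ _i : Fin d, (n : ℝ) := by simp
    rw [h1, ← Finset.prod_mul_distrib, Nat.cast_prod]
    refine Finset.prod_congr rfl fun i _ => ?_
    rw [Nat.cast_sub ((ht i).trans hnt)]
    field_simp
  have hpow : (n : ℝ) ^ d = n ^ (d - 1) * n := by
    rw [← pow_succ, Nat.sub_add_cancel hd]
  have key : (n : ℝ) * (1 - ∏ i, (1 - (s i : ℝ) / n)) =
      ((n ^ d - ∏ i, (n - s i) : ℕ) : ℝ) / ((n ^ (d - 1) : ℕ) : ℝ) := by
    rw [Nat.cast_sub hle, hprod, Nat.cast_pow, Nat.cast_pow, hpow]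
    field_simp
  rw [Function.comp_apply]
  rw [key, ENNReal.ofReal_div_of_pos (by positivity), ENNReal.ofReal_natCast,
    ENNReal.ofReal_natCast, Nat.cast_pow]

theorem untrim_aux_ratio (p t : ℕ) :
    Tendsto (fun n : ℕ => ((n : ENNReal) ^ p) / (((n + t : ℕ) : ENNReal) ^ p)) atTop
      (nhds 1) := by
  have h := (tendsto_natCast_div_add_atTop (t : ℝ)).pow p
  rw [one_pow] at h
  have h2 := (ENNReal.continuous_ofReal.tendsto _).comp h
  rw [ENNReal.ofReal_one] at h2
  refine h2.congr' ?_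
  filter_upwards [eventually_gt_atTop 0] with n hn
  have key : ((n : ℝ) / (n + t)) ^ p = ((n ^ p : ℕ) : ℝ) / (((n + t) ^ p : ℕ) : ℝ) := by
    push_cast
    rw [div_pow]
  rw [Function.comp_apply]
  rw [key, ENNReal.ofReal_div_of_pos (by positivity), ENNReal.ofReal_natCast,
    ENNReal.ofReal_natCast, Nat.cast_pow, Nat.cast_pow]

theorem untrim_lim {d : ℕ} (hd : 0 < d) (s : Fin d → ℕ) (t : ℕ) (ht : ∀ i, s i ≤ t)
    (F F' : ℕ → ℕ)
    (h1 : ∀ n, F' n + ∏ i, (n - s i) ≤ n ^ d + F n)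
    (h2 : ∀ n, t ≤ n → n ^ d + F (n - t) ≤ F' n + ∏ i, (n - s i)) (L : ENNReal)
    (hL : Tendsto (fun n : ℕ => ((F n : ℕ) : ENNReal) / ((n : ENNReal) ^ (d - 1))) atTop (nhds L)) :
    Tendsto (fun n : ℕ => ((F' n : ℕ) : ENNReal) / ((n : ENNReal) ^ (d - 1))) atTop
      (nhds (L + ∑ i, (s i : ENNReal))) := by
  have hb := untrim_aux_b hd s t ht
  have hle : ∀ n : ℕ, ∏ i, (n - s i) ≤ n ^ d := fun n => by
    calc ∏ i, (n - s i) ≤ ∏ _i : Fin d, n := Finset.prod_le_prod' fun i _ => Nat.sub_le _ _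
      _ = n ^ d := by simp
  -- the shifted function
  have hsh : Tendsto (fun n : ℕ => ((F (n - t) : ℕ) : ENNReal) / ((n : ENNReal) ^ (d - 1))) atTop
      (nhds L) := by
    rw [← tendsto_add_atTop_iff_nat t]
    have h3 := ENNReal.Tendsto.mul hL (Or.inr ENNReal.one_ne_top) (untrim_aux_ratio (d - 1) t)
      (Or.inl one_ne_zero)
    rw [mul_one] at h3
    refine h3.congr' ?_
    filter_upwards [eventually_gt_atTop 0] with n hn
    have hn0 : (n : ENNReal) ^ (d - 1) ≠ 0 := pow_ne_zero _ (by exact_mod_cast hn.ne')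
    have hn1 : (n : ENNReal) ^ (d - 1) ≠ ⊤ := ENNReal.pow_ne_top (ENNReal.natCast_ne_top n)
    rw [Nat.add_sub_cancel, div_eq_mul_inv, div_eq_mul_inv, div_eq_mul_inv]
    calc (F n : ENNReal) * ((n : ENNReal) ^ (d - 1))⁻¹ *
        ((n : ENNReal) ^ (d - 1) * (((n + t : ℕ) : ENNReal) ^ (d - 1))⁻¹)
        = (F n : ENNReal) * (((n : ENNReal) ^ (d - 1))⁻¹ * (n : ENNReal) ^ (d - 1)) *
          (((n + t : ℕ) : ENNReal) ^ (d - 1))⁻¹ := by ring
      _ = _ := by rw [ENNReal.inv_mul_cancel hn0 hn1, mul_one]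
  have hup := hL.add hb
  have hlo := hsh.add hb
  refine tendsto_of_tendsto_of_tendsto_of_le_of_le' hlo hup ?_ ?_
  · filter_upwards [eventually_ge_atTop t] with n hn
    rw [← ENNReal.add_div]
    refine ENNReal.div_le_div_right ?_ _
    have e1 := h2 n hn
    have e2 := hle n
    have e3 : F (n - t) + (n ^ d - ∏ i, (n - s i)) ≤ F' n := by omega
    exact_mod_cast e3
  · refine Eventually.of_forall fun n => ?_
    show _ ≤ _
    rw [← ENNReal.add_div]
    refine ENNReal.div_le_div_right ?_ _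
    have e1 := h1 n
    have e2 := hle n
    have e3 : F' n ≤ F n + (n ^ d - ∏ i, (n - s i)) := by omega
    exact_mod_cast e3

end Pool.Agent.R612.TG
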