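import Pool.Agent.R612.TG.Defs2
import Pool.Agent.R612.TG.EXB

/-! TU-LO: lower bound for a pattern with empty boundary slices. -/

set_option autoImplicit false

namespace Pool.Agent.R612.TG

variable {d : ℕ}

namespace ULO

/-- a strictly increasing map between `Fin`s increases gaps -/
lemma gap {K n : ℕ} (f : Fin K ↪o Fin n) :
    ∀ (t : ℕ) (a c : Fin K), (c : ℕ) = (a : ℕ) + t →
      ((f a : Fin n) : ℕ) + t ≤ ((f c : Fin n) : ℕ) := by
  intro t
  induction t with
  | zero =>
    intro a c h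
    have : a = c := Fin.ext (by omega)
    rw [this]; simp
  | succ t ih =>
    intro a c h
    have hc' : (a : ℕ) + t < K := by have := c.2; omega
    have h1 := ih a ⟨(a : ℕ) + t, hc'⟩ rfl
    have h2 : f ⟨(a : ℕ) + t, hc'⟩ < f c := by
      rw [f.lt_iff_lt]
      rw [Fin.lt_def]
      simp only []
      omega
    have h3 : ((f ⟨(a : ℕ) + t, hc'⟩ : Fin n) : ℕ) < ((f c : Fin n) : ℕ) := h2
    omega

lemma card_slab (n l h : ℕ) :
    (Finset.univ.filter (fun x : Fin n => l ≤ (x : ℕ) ∧ (x : ℕ) < n - h)).card =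
      n - (l + h) := by
  have e : (Finset.univ.filter (fun x : Fin n => l ≤ (x : ℕ) ∧ (x : ℕ) < n - h)).map
      Fin.valEmbedding = Finset.Ico l (n - h) := by
    ext x
    simp only [Finset.mem_map, Finset.mem_filter, Finset.mem_univ, true_and,
      Fin.valEmbedding_apply, Finset.mem_Ico]
    constructor
    · rintro ⟨y, hy, rfl⟩
      exact hy
    · intro hx
      exact ⟨⟨x, by omega⟩, hx, rfl⟩
  rw [← Finset.card_map Fin.valEmbedding, e, Nat.card_Ico]
  omega

end ULO

theorem untrim_lower (k k' lo hi : Fin d → ℕ) (hk : ∀ i, k' i = lo i + k i + hi i)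
    (P : Finset ((i : Fin d) → Fin (k i))) (hne : P.Nonempty) (hT : TrimP k P)
    (P' : Finset ((i : Fin d) → Fin (k' i)))
    (hP' : ∀ x' : (i : Fin d) → Fin (k' i), x' ∈ P' ↔ ∃ x ∈ P, ∀ i, (x' i : ℕ) = lo i + (x i : ℕ))
    (t : ℕ) (ht : ∀ i, lo i + hi i ≤ t) (n : ℕ) (hn : t ≤ n) :
    n ^ d + ex k P (n - t) ≤ ex k' P' n + ∏ i, (n - (lo i + hi i)) := by
  classical
  obtain ⟨A0, hA0, hav⟩ := ex_att k P hne (n - t)
  set B : Finset (Fin d → Fin n) := Fintype.piFinset (fun i =>
    Finset.univ.filter (fun x : Fin n => lo i ≤ (x : ℕ) ∧ (x : ℕ) < n - hi i)) with hB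
  have hBmem : ∀ y : Fin d → Fin n, y ∈ B ↔ ∀ i, lo i ≤ (y i : ℕ) ∧ (y i : ℕ) < n - hi i := by
    intro y
    rw [hB, Fintype.mem_piFinset]
    simp
  have hBcard : B.card = ∏ i, (n - (lo i + hi i)) := by
    rw [hB, Fintype.card_piFinset]
    exact Finset.prod_congr rfl fun i _ => ULO.card_slab n (lo i) (hi i)
  have hsh : ∀ (a : Fin d → Fin (n - t)) (i : Fin d), lo i + (a i : ℕ) < n := by
    intro a i
    have := (a i).2
    have := ht i
    omega
  set sh : (Fin d → Fin (n - t)) → (Fin d → Fin n) := fun a i => ⟨lo i + (a i : ℕ), hsh a i⟩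
    with hshdef
  have hshv : ∀ a i, ((sh a i : Fin n) : ℕ) = lo i + (a i : ℕ) := fun a i => rfl
  have hinj : Function.Injective sh := by
    intro a b hab
    funext i
    have h1 := congrArg (fun f : Fin d → Fin n => ((f i : Fin n) : ℕ)) hab
    simp only [hshv] at h1
    exact Fin.ext (by omega)
  have hsub : A0.image sh ⊆ B := by
    intro y hy
    obtain ⟨a, ha, rfl⟩ := Finset.mem_image.1 hy
    rw [hBmem]
    intro i
    rw [hshv]
    have := (a i).2
    have := ht i
    omega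
  have hdis : Disjoint (Finset.univ \ B) (A0.image sh) :=
    Finset.disjoint_left.2 fun y h1 h2 => (Finset.mem_sdiff.1 h1).2 (hsub h2)
  have hcard : ((Finset.univ \ B) ∪ A0.image sh).card + B.card = n ^ d + ex k P (n - t) := by
    rw [Finset.card_union_of_disjoint hdis, Finset.card_image_of_injective _ hinj, hA0,
      add_right_comm, Finset.card_sdiff_add_card_eq_card (Finset.subset_univ B),
      Finset.card_univ, Fintype.card_fun, Fintype.card_fin, Fintype.card_fin]
  have hav' : Avoids k' P' ((Finset.univ \ B) ∪ A0.image sh) := by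
    rintro ⟨φ', hφ'⟩
    have hlt : ∀ (i : Fin d) (j : Fin (k i)), lo i + (j : ℕ) < k' i := by
      intro i j
      have := j.2
      rw [hk]
      omega
    -- the values on the lines of `P` are at least `lo i`
    have hge : ∀ (i : Fin d) (j : Fin (k i)),
        lo i ≤ ((φ' i ⟨lo i + (j : ℕ), hlt i j⟩ : Fin n) : ℕ) := by
      intro i j
      have h0 : 0 < k' i := lt_of_le_of_lt (Nat.zero_le _) (hlt i j)
      have := ULO.gap (φ' i) (lo i + (j : ℕ)) ⟨0, h0⟩ ⟨lo i + (j : ℕ), hlt i j⟩ (by simp)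
      omega
    have hle : ∀ (i : Fin d) (j : Fin (k i)),
        ((φ' i ⟨lo i + (j : ℕ), hlt i j⟩ : Fin n) : ℕ) < n - hi i := by
      intro i j
      have hj := j.2
      have hki := hk i
      have := ULO.gap (φ' i) (k' i - 1 - (lo i + (j : ℕ))) ⟨lo i + (j : ℕ), hlt i j⟩
        ⟨k' i - 1, by omega⟩ (by simp only []; omega)
      have h2 := (φ' i ⟨k' i - 1, by omega⟩).2
      omega
    have hpt : ∀ x ∈ P, ∃ a ∈ A0, ∀ i,
        ((φ' i ⟨lo i + (x i : ℕ), hlt i (x i)⟩ : Fin n) : ℕ) = lo i + (a i : ℕ) := by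
      intro x hx
      have h1 : (fun i => (⟨lo i + (x i : ℕ), hlt i (x i)⟩ : Fin (k' i))) ∈ P' :=
        (hP' _).2 ⟨x, hx, fun i => rfl⟩
      have h2 := hφ' _ h1
      have h3 : (fun i => φ' i (⟨lo i + (x i : ℕ), hlt i (x i)⟩ : Fin (k' i))) ∈ B := by
        rw [hBmem]
        exact fun i => ⟨hge i (x i), hle i (x i)⟩
      rcases Finset.mem_union.1 h2 with h4 | h4
      · exact absurd h3 (Finset.mem_sdiff.1 h4).2
      · obtain ⟨a, ha, hae⟩ := Finset.mem_image.1 h4
        refine ⟨a, ha, fun i => ?_⟩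
        have h5 := congrArg (fun f : Fin d → Fin n => ((f i : Fin n) : ℕ)) hae
        simp only [hshv] at h5
        exact h5.symm
    have hval : ∀ (i : Fin d) (j : Fin (k i)),
        ((φ' i ⟨lo i + (j : ℕ), hlt i j⟩ : Fin n) : ℕ) - lo i < n - t := by
      intro i j
      obtain ⟨x, hx, hxi⟩ := (hT i).2
      obtain ⟨a, -, ha⟩ := hpt x hx
      have h1 := ha i
      have h2 := (a i).2
      have hj := j.2
      have h3 := ULO.gap (φ' i) ((x i : ℕ) - (j : ℕ)) ⟨lo i + (j : ℕ), hlt i j⟩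
        ⟨lo i + (x i : ℕ), hlt i (x i)⟩ (by simp only []; omega)
      omega
    have hmono : ∀ i : Fin d, StrictMono (fun j : Fin (k i) =>
        (⟨((φ' i ⟨lo i + (j : ℕ), hlt i j⟩ : Fin n) : ℕ) - lo i, hval i j⟩ : Fin (n - t))) := by
      intro i j1 j2 hj
      rw [Fin.lt_def]
      simp only []
      have h1 : (⟨lo i + (j1 : ℕ), hlt i j1⟩ : Fin (k' i)) < ⟨lo i + (j2 : ℕ), hlt i j2⟩ := by
        rw [Fin.lt_def]
        simp only []
        have : (j1 : ℕ) < j2 := hj
        omega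
      have h2 := (φ' i).lt_iff_lt.2 h1
      rw [Fin.lt_def] at h2
      have h3 := hge i j1
      omega
    apply hav
    refine ⟨fun i => OrderEmbedding.ofStrictMono _ (hmono i), ?_⟩
    intro x hx
    obtain ⟨a, ha, hae⟩ := hpt x hx
    have e : (fun i => (OrderEmbedding.ofStrictMono _ (hmono i)) (x i)) = a := by
      funext i
      apply Fin.ext
      have h1 := hae i
      simp only [OrderEmbedding.coe_ofStrictMono]
      omega
    rw [e]
    exact ha
  have hfin := ex_le k' P' n _ hav'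
  omega

end Pool.Agent.R612.TG
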