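import Pool.Agent.R612.TG.Defs2
import Pool.Agent.R612.TG.EXB

/-! TU-UP (helper861, subtask 5566): pattern with empty boundary slices, upper bound. -/

set_option autoImplicit false

namespace Pool.Agent.R612.TG

variable {d : ℕ}

namespace UUP

theorem card_seg (n a b : ℕ) :
    ((Finset.univ : Finset (Fin n)).filter fun j : Fin n => a ≤ (j : ℕ) ∧ (j : ℕ) < n - b).card =
      n - (a + b) := by
  have h1 : (((Finset.univ : Finset (Fin n)).filter
      fun j : Fin n => a ≤ (j : ℕ) ∧ (j : ℕ) < n - b).map Fin.valEmbedding) = Finset.Ico a (n - b) := by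
    ext m
    simp only [Finset.mem_map, Finset.mem_filter, Finset.mem_univ, true_and, Finset.mem_Ico,
      Fin.valEmbedding_apply]
    constructor
    · rintro ⟨j, hj, rfl⟩
      exact hj
    · intro hm
      exact ⟨⟨m, by omega⟩, hm, rfl⟩
  rw [← Finset.card_map Fin.valEmbedding, h1, Nat.card_Ico]
  omega

theorem card_box (n : ℕ) (lo hi : Fin d → ℕ) :
    ((Finset.univ : Finset (Fin d → Fin n)).filter
      fun x => ∀ i, lo i ≤ (x i : ℕ) ∧ (x i : ℕ) < n - hi i).card =
      ∏ i, (n - (lo i + hi i)) := by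
  have h1 : ((Finset.univ : Finset (Fin d → Fin n)).filter
      fun x => ∀ i, lo i ≤ (x i : ℕ) ∧ (x i : ℕ) < n - hi i) =
      Fintype.piFinset fun i => (Finset.univ : Finset (Fin n)).filter
        fun j : Fin n => lo i ≤ (j : ℕ) ∧ (j : ℕ) < n - hi i := by
    ext x
    simp only [Finset.mem_filter, Finset.mem_univ, true_and, Fintype.mem_piFinset]
  rw [h1, Fintype.card_piFinset]
  exact Finset.prod_congr rfl fun i _ => card_seg n (lo i) (hi i)

end UUP

theorem untrim_upper (k k' lo hi : Fin d → ℕ) (hk : ∀ i, k' i = lo i + k i + hi i)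
    (P : Finset ((i : Fin d) → Fin (k i))) (hne : P.Nonempty) (hT : TrimP k P)
    (P' : Finset ((i : Fin d) → Fin (k' i)))
    (hP' : ∀ x' : (i : Fin d) → Fin (k' i), x' ∈ P' ↔ ∃ x ∈ P, ∀ i, (x' i : ℕ) = lo i + (x i : ℕ))
    (n : ℕ) : ex k' P' n + ∏ i, (n - (lo i + hi i)) ≤ n ^ d + ex k P n := by
  classical
  have hne' : P'.Nonempty := by
    obtain ⟨x, hx⟩ := hne
    refine ⟨fun i => ⟨lo i + (x i : ℕ), by have := (x i).2; have := hk i; omega⟩, ?_⟩
    rw [hP']
    exact ⟨x, hx, fun i => rfl⟩
  obtain ⟨A, hA1, hA2⟩ := ex_att k' P' hne' n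
  set B : Finset (Fin d → Fin n) := (Finset.univ : Finset (Fin d → Fin n)).filter
      fun x => ∀ i, lo i ≤ (x i : ℕ) ∧ (x i : ℕ) < n - hi i with hB
  have hAB : Avoids k P (A ∩ B) := by
    rintro ⟨φ, hφ⟩
    have hinB : ∀ x ∈ P, ∀ i, lo i ≤ ((φ i (x i) : Fin n) : ℕ) ∧
        ((φ i (x i) : Fin n) : ℕ) < n - hi i := by
      intro x hx
      have h1 := (Finset.mem_inter.1 (hφ x hx)).2
      rw [hB, Finset.mem_filter] at h1
      exact h1.2
    have hL : ∀ i (m : Fin (k i)), lo i ≤ ((φ i m : Fin n) : ℕ) := by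
      intro i m
      obtain ⟨x, hx, hx0⟩ := (hT i).1
      have h1 := (hinB x hx i).1
      have h2 : φ i (x i) ≤ φ i m := (φ i).monotone (by rw [Fin.le_def]; omega)
      rw [Fin.le_def] at h2
      omega
    have hU : ∀ i (m : Fin (k i)), ((φ i m : Fin n) : ℕ) < n - hi i := by
      intro i m
      obtain ⟨x, hx, hx1⟩ := (hT i).2
      have h1 := (hinB x hx i).2
      have h2 : φ i m ≤ φ i (x i) := (φ i).monotone (by
        rw [Fin.le_def]
        have := m.2
        omega)
      rw [Fin.le_def] at h2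
      omega
    have hkpos : ∀ i, 0 < k i := fun i => by
      obtain ⟨x, hx⟩ := hne
      exact lt_of_le_of_lt (Nat.zero_le _) (x i).2
    set val : (i : Fin d) → Fin (k' i) → ℕ := fun i j =>
      if (j : ℕ) < lo i then (j : ℕ) else
        if h : (j : ℕ) - lo i < k i then ((φ i ⟨(j : ℕ) - lo i, h⟩ : Fin n) : ℕ)
        else n - (k' i - (j : ℕ)) with hval
    have v1 : ∀ (i : Fin d) (j : Fin (k' i)), (j : ℕ) < lo i → val i j = (j : ℕ) := by
      intro i j h
      simp only [hval]
      rw [if_pos h]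
    have v2 : ∀ (i : Fin d) (j : Fin (k' i)), ¬ (j : ℕ) < lo i →
        ∀ h : (j : ℕ) - lo i < k i, val i j = ((φ i ⟨(j : ℕ) - lo i, h⟩ : Fin n) : ℕ) := by
      intro i j h h'
      simp only [hval]
      rw [if_neg h, dif_pos h']
    have v3 : ∀ (i : Fin d) (j : Fin (k' i)), ¬ (j : ℕ) < lo i →
        ¬ (j : ℕ) - lo i < k i → val i j = n - (k' i - (j : ℕ)) := by
      intro i j h h'
      simp only [hval]
      rw [if_neg h, dif_neg h']
    have hlt : ∀ i j, val i j < n := by
      intro i j
      have h0 := hL i ⟨0, hkpos i⟩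
      have h1 := (φ i ⟨0, hkpos i⟩).2
      have h2 := j.2
      by_cases ha : (j : ℕ) < lo i
      · rw [v1 i j ha]; omega
      · by_cases hb : (j : ℕ) - lo i < k i
        · rw [v2 i j ha hb]; exact (φ i _).2
        · rw [v3 i j ha hb]; omega
    have hmono : ∀ i, StrictMono (val i) := by
      intro i j j' hjj
      have hjj' : (j : ℕ) < (j' : ℕ) := hjj
      have h0 := hL i ⟨0, hkpos i⟩
      have h1 := hU i ⟨0, hkpos i⟩
      have h2 := j'.2
      have h3 := hk i
      by_cases ha' : (j' : ℕ) < lo i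
      · rw [v1 i j' ha', v1 i j (by omega)]
        exact hjj'
      · by_cases hb' : (j' : ℕ) - lo i < k i
        · rw [v2 i j' ha' hb']
          by_cases ha : (j : ℕ) < lo i
          · rw [v1 i j ha]
            have := hL i ⟨(j' : ℕ) - lo i, hb'⟩
            omega
          · have hb : (j : ℕ) - lo i < k i := by omega
            rw [v2 i j ha hb]
            have h4 : φ i ⟨(j : ℕ) - lo i, hb⟩ < φ i ⟨(j' : ℕ) - lo i, hb'⟩ :=
              (φ i).strictMono (by rw [Fin.lt_def]; simp only; omega)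
            exact h4
        · rw [v3 i j' ha' hb']
          by_cases ha : (j : ℕ) < lo i
          · rw [v1 i j ha]
            omega
          · by_cases hb : (j : ℕ) - lo i < k i
            · rw [v2 i j ha hb]
              have := hU i ⟨(j : ℕ) - lo i, hb⟩
              omega
            · rw [v3 i j ha hb]
              omega
    apply hA2
    refine ⟨fun i => OrderEmbedding.ofStrictMono
      (fun j => (⟨val i j, hlt i j⟩ : Fin n)) (fun j j' h => hmono i h), ?_⟩
    intro x' hx'
    obtain ⟨x, hx, hxx⟩ := (hP' x').1 hx'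
    have h1 := (Finset.mem_inter.1 (hφ x hx)).1
    have h2 : (fun i => (OrderEmbedding.ofStrictMono
        (fun j => (⟨val i j, hlt i j⟩ : Fin n)) (fun j j' h => hmono i h)) (x' i)) =
        fun i => φ i (x i) := by
      funext i
      apply Fin.ext
      have h3 := hxx i
      have h4 := (x i).2
      have h5 : ¬ (x' i : ℕ) < lo i := by omega
      have h6 : (x' i : ℕ) - lo i < k i := by omega
      have h7 : (⟨(x' i : ℕ) - lo i, h6⟩ : Fin (k i)) = x i := by
        apply Fin.ext
        simp only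
        omega
      have h8 := v2 i (x' i) h5 h6
      rw [h7] at h8
      exact h8
    rw [h2]
    exact h1
  have h1 : (A ∩ B).card ≤ ex k P n := ex_le k P n (A ∩ B) hAB
  have h2 : (A ∪ B).card ≤ n ^ d := by
    refine (Finset.card_le_univ _).trans (le_of_eq ?_)
    rw [Fintype.card_pi, Finset.prod_const, Fintype.card_fin, Finset.card_univ, Fintype.card_fin]
  have h3 := Finset.card_union_add_card_inter A B
  have h4 : B.card = ∏ i, (n - (lo i + hi i)) := UUP.card_box n lo hi
  rw [← hA1, ← h4]
  omega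

end Pool.Agent.R612.TG
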