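import Pool.Agent.R612.TG.Asm
import Pool.Agent.R612.TG.UUP
import Pool.Agent.R612.TG.ULO
import Pool.Agent.R612.TG.ULIM

set_option autoImplicit false

namespace Pool.Agent.R612.TG
open Filter

variable {d : ℕ}

theorem trimP_dup (side : Fin d → Bool) (K : Bool → ℕ) (Q : Finset ((b : Bool) → Fin (K b)))
    (hQ : Trim K Q) : TrimP (fun i => K (side i)) (dup side K Q) := by
  intro i
  obtain ⟨⟨p, hp, hp0⟩, ⟨q, hq, hq0⟩⟩ := hQ (side i)
  exact ⟨⟨_, Finset.mem_image_of_mem _ hp, hp0⟩, ⟨_, Finset.mem_image_of_mem _ hq, hq0⟩⟩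

/-- the pattern with reversed coordinates and empty boundary slices -/
def pat (side : Fin d → Bool) (rev : Fin d → Bool) (K : Bool → ℕ) (lo hi : Fin d → ℕ)
    (Q : Finset ((b : Bool) → Fin (K b))) :
    Finset ((i : Fin d) → Fin (lo i + K (side i) + hi i)) :=
  Q.image fun q i => ⟨lo i + ((if rev i then (q (side i)).rev else q (side i) : Fin _) : ℕ), by
    have := (if rev i then (q (side i)).rev else q (side i) : Fin _).2
    omega⟩

theorem trimP_flip (side : Fin d → Bool) (rev : Fin d → Bool) (K : Bool → ℕ)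
    (Q : Finset ((b : Bool) → Fin (K b))) (hQ : Trim K Q) :
    TrimP (fun i => K (side i)) (flipP (fun i => K (side i)) rev (dup side K Q)) := by
  intro i
  obtain ⟨⟨p, hp, hp0⟩, ⟨q, hq, hq0⟩⟩ := trimP_dup side K Q hQ i
  have hq1 : (q i : ℕ) + 1 = K (side i) := hq0
  have hp1 : (p i : ℕ) < K (side i) := (p i).2
  by_cases h : rev i = true
  · refine ⟨⟨_, Finset.mem_image_of_mem _ hq, ?_⟩, ⟨_, Finset.mem_image_of_mem _ hp, ?_⟩⟩
    · simp only [h, if_true, Fin.val_rev]; omega
    · simp only [h, if_true, Fin.val_rev]; omega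
  · refine ⟨⟨_, Finset.mem_image_of_mem _ hp, ?_⟩, ⟨_, Finset.mem_image_of_mem _ hq, ?_⟩⟩
    · simp only [h]; simpa using hp0
    · simp only [h]; simpa using hq0

theorem conv_ne (side : Fin d → Bool) (hs : ∀ b, ∃ i, side i = b) (rev : Fin d → Bool)
    (K : Bool → ℕ) (lo' hi' : Fin d → ℕ)
    (Q : Finset ((b : Bool) → Fin (K b))) (hne : Q.Nonempty) :
    ∃ L : ENNReal, Tendsto (fun n : ℕ =>
      ((ex (fun i => lo' i + K (side i) + hi' i) (pat side rev K lo' hi' Q) n : ℕ) : ENNReal) /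
        ((n : ENNReal) ^ (d - 1))) atTop (nhds L) := by
  classical
  have hmin : ∀ b, ∃ q ∈ Q, ∀ p ∈ Q, (q b : ℕ) ≤ p b := fun b =>
    Finset.exists_min_image Q (fun q => (q b : ℕ)) hne
  have hmax : ∀ b, ∃ q ∈ Q, ∀ p ∈ Q, (p b : ℕ) ≤ q b := fun b =>
    Finset.exists_max_image Q (fun q => (q b : ℕ)) hne
  choose f hf hf' using hmin
  choose g hg hg' using hmax
  let lo : Bool → ℕ := fun b => (f b b : ℕ)
  let la : Bool → ℕ := fun b => (g b b : ℕ)
  have hla : ∀ b, lo b ≤ la b := fun b => hf' b _ (hg b)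
  have hlt : ∀ b, la b < K b := fun b => (g b b).2
  let K0 : Bool → ℕ := fun b => la b - lo b + 1
  let hi : Bool → ℕ := fun b => K b - 1 - la b
  have hK0 : ∀ b, K0 b = la b - lo b + 1 := fun _ => rfl
  have hhi : ∀ b, hi b = K b - 1 - la b := fun _ => rfl
  let Q0 : Finset ((b : Bool) → Fin (K0 b)) :=
    Finset.univ.filter fun x => ∃ q ∈ Q, ∀ b, (q b : ℕ) = lo b + (x b : ℕ)
  have hsh : ∀ q ∈ Q, ∃ x ∈ Q0, ∀ b, (q b : ℕ) = lo b + (x b : ℕ) := by
    intro q hq
    refine ⟨fun b => ⟨(q b : ℕ) - lo b, ?_⟩, ?_, ?_⟩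
    · have h1 := hg' b q hq
      have h2 := hla b
      show (q b : ℕ) - lo b < la b - lo b + 1
      have h3 : (q b : ℕ) ≤ la b := h1
      omega
    · refine Finset.mem_filter.2 ⟨Finset.mem_univ _, q, hq, fun b => ?_⟩
      have h1 : lo b ≤ (q b : ℕ) := hf' b q hq
      show (q b : ℕ) = lo b + ((q b : ℕ) - lo b)
      omega
    · intro b
      have h1 : lo b ≤ (q b : ℕ) := hf' b q hq
      show (q b : ℕ) = lo b + ((q b : ℕ) - lo b)
      omega
  have hT : Trim K0 Q0 := by
    intro b
    obtain ⟨x, hx, hx'⟩ := hsh _ (hf b)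
    obtain ⟨y, hy, hy'⟩ := hsh _ (hg b)
    refine ⟨⟨x, hx, ?_⟩, ⟨y, hy, ?_⟩⟩
    · have := hx' b
      have h2 : (f b b : ℕ) = lo b := rfl
      omega
    · have := hy' b
      have h2 : (g b b : ℕ) = la b := rfl
      have h3 := hla b
      show (y b : ℕ) + 1 = la b - lo b + 1
      omega
  obtain ⟨L, hL⟩ := conv side hs K0 Q0 hT
  set P0 := flipP (fun i => K0 (side i)) rev (dup side K0 Q0) with hP0
  let LO : Fin d → ℕ := fun i => lo' i + if rev i then hi (side i) else lo (side i)
  let HI : Fin d → ℕ := fun i => hi' i + if rev i then lo (side i) else hi (side i)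
  have hLO : ∀ i, LO i = lo' i + if rev i then hi (side i) else lo (side i) := fun _ => rfl
  have hHI : ∀ i, HI i = hi' i + if rev i then lo (side i) else hi (side i) := fun _ => rfl
  have hk : ∀ i, lo' i + K (side i) + hi' i = LO i + K0 (side i) + HI i := by
    intro i
    have h1 := hla (side i)
    have h2 := hlt (side i)
    rw [hLO, hHI, hK0, hhi]
    split_ifs <;> omega
  have hP' : ∀ x' : (i : Fin d) → Fin (lo' i + K (side i) + hi' i),
      x' ∈ pat side rev K lo' hi' Q ↔ ∃ x ∈ P0, ∀ i, (x' i : ℕ) = LO i + (x i : ℕ) := by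
    have key : ∀ (q : (b : Bool) → Fin (K b)) (x : (b : Bool) → Fin (K0 b)),
        (∀ b, (q b : ℕ) = lo b + (x b : ℕ)) → ∀ i,
        lo' i + ((if rev i then (q (side i)).rev else q (side i) : Fin _) : ℕ) =
          LO i + ((if rev i then (x (side i)).rev else x (side i) : Fin _) : ℕ) := by
      intro q x h i
      have h1 := hla (side i)
      have h2 := hlt (side i)
      have h3 := h (side i)
      have h4 := (x (side i)).2
      have h5 := (q (side i)).2
      have h6 := hK0 (side i)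
      rw [hLO]
      by_cases hr : rev i = true
      · simp only [hr, if_true, Fin.val_rev, hhi]
        omega
      · simp only [hr]
        simp only [Bool.false_eq_true, if_false]
        omega
    intro x'
    constructor
    · intro h
      obtain ⟨q, hq, rfl⟩ := Finset.mem_image.1 h
      obtain ⟨x, hx, hx'⟩ := hsh q hq
      exact ⟨_, Finset.mem_image_of_mem _ (Finset.mem_image_of_mem _ hx), fun i => key q x hx' i⟩
    · rintro ⟨x, hx, hx'⟩
      obtain ⟨z, hz, rfl⟩ := Finset.mem_image.1 hx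
      obtain ⟨y, hy, rfl⟩ := Finset.mem_image.1 hz
      obtain ⟨q, hq, hq'⟩ := (Finset.mem_filter.1 hy).2
      refine Finset.mem_image.2 ⟨q, hq, ?_⟩
      funext i
      apply Fin.ext
      rw [hx' i]
      exact key q y hq' i
  have hne0 : P0.Nonempty := by
    obtain ⟨q, hq⟩ := hne
    obtain ⟨x, hx, _⟩ := hsh q hq
    exact ⟨_, Finset.mem_image_of_mem _ (Finset.mem_image_of_mem _ hx)⟩
  have hTP := trimP_flip side rev K0 Q0 hT
  have hd : 0 < d := by have := two_le side hs; omega
  let t : ℕ := ∑ i, (LO i + HI i)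
  have ht : ∀ i, LO i + HI i ≤ t := fun i =>
    Finset.single_le_sum (f := fun i => LO i + HI i) (fun _ _ => Nat.zero_le _)
      (Finset.mem_univ i)
  refine ⟨_, untrim_lim hd (fun i => LO i + HI i) t ht
    (ex (fun i => K0 (side i)) P0) _ ?_ ?_ L ?_⟩
  · intro n
    exact untrim_upper (fun i => K0 (side i)) (fun i => lo' i + K (side i) + hi' i) LO HI hk _
      hne0 hTP _ hP' n
  · intro n hn
    exact untrim_lower (fun i => K0 (side i)) (fun i => lo' i + K (side i) + hi' i) LO HI hk _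
      hne0 hTP _ hP' t ht n hn
  · simp only [hP0, ex_flip]
    exact hL

theorem ex_empty (k : Fin d → ℕ) (n : ℕ) (hn : ∀ i, k i ≤ n) :
    ex k (∅ : Finset ((i : Fin d) → Fin (k i))) n = 0 := by
  unfold ex
  have : {m : ℕ | ∃ A : Finset (Fin d → Fin n), A.card = m ∧
      Avoids k (∅ : Finset ((i : Fin d) → Fin (k i))) A} = ∅ := by
    rw [Set.eq_empty_iff_forall_notMem]
    rintro m ⟨A, _, hA⟩
    exact hA ⟨fun i => Fin.castLEOrderEmb (hn i), fun x hx => absurd hx (Finset.notMem_empty x)⟩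
  rw [this]
  simp

/-- convergence for all patterns `pat side rev K lo hi Q` -/
theorem conv_main (side : Fin d → Bool) (hs : ∀ b, ∃ i, side i = b) (rev : Fin d → Bool)
    (K : Bool → ℕ) (lo hi : Fin d → ℕ) (Q : Finset ((b : Bool) → Fin (K b))) :
    ∃ L : ENNReal, Tendsto (fun n : ℕ =>
      ((ex (fun i => lo i + K (side i) + hi i) (pat side rev K lo hi Q) n : ℕ) : ENNReal) /
        ((n : ENNReal) ^ (d - 1))) atTop (nhds L) := by
  rcases Q.eq_empty_or_nonempty with h | h
  · subst h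
    refine ⟨0, ?_⟩
    refine tendsto_const_nhds.congr' ?_
    filter_upwards [eventually_ge_atTop (∑ i, (lo i + K (side i) + hi i))] with n hn
    have : pat side rev K lo hi ∅ = ∅ := Finset.image_empty _
    rw [this, ex_empty]
    · simp
    · intro i
      exact le_trans (Finset.single_le_sum (f := fun i => lo i + K (side i) + hi i)
        (fun _ _ => Nat.zero_le _) (Finset.mem_univ i)) hn
  · exact conv_ne side hs rev K lo hi Q h

end Pool.Agent.R612.TG
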