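import Pool.Agent.R612.TG.Defs2

/-! TB-BLK: block construction along an antichain. -/

set_option autoImplicit false

namespace Pool.Agent.R612.TG

variable {d : ℕ}

theorem blk_card (K m : ℕ) (S : Finset (Fin d → Fin K)) (A : Finset (Fin d → Fin m)) :
    (blk K m S A).card = S.card * A.card := by
  unfold blk
  rw [Finset.card_image_of_injective, Finset.card_product]
  intro p q h
  have h1 : ∀ i, (p.1 i, p.2 i) = (q.1 i, q.2 i) := fun i =>
    finProdFinEquiv.injective (congrFun h i)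
  refine Prod.ext ?_ ?_
  · funext i
    exact congrArg Prod.fst (h1 i)
  · funext i
    exact congrArg Prod.snd (h1 i)

theorem BLKaux_gap {a b : ℕ} (e : Fin a ↪o Fin b) (r : Fin a) (t : ℕ) :
    ∀ s : Fin a, (s : ℕ) = r + t → ((e r : Fin b) : ℕ) + t ≤ ((e s : Fin b) : ℕ) := by
  induction t with
  | zero =>
    intro s hs
    have : s = r := Fin.ext (by simpa using hs)
    rw [this]
    simp
  | succ t ih =>
    intro s hs
    have hlt : (r : ℕ) + t < a := by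
      have := s.isLt
      omega
    have h1 := ih ⟨(r : ℕ) + t, hlt⟩ rfl
    have h2 : e ⟨(r : ℕ) + t, hlt⟩ < e s := by
      rw [e.lt_iff_lt]
      rw [Fin.lt_def]
      show (r : ℕ) + t < (s : ℕ)
      omega
    have h3 := Fin.lt_def.1 h2
    omega

/-- uses `extend` of Stm -/
theorem blk_avoids (hext : ∀ (K n : ℕ) (R : Finset (Fin K)) (v : Fin K → ℕ), (∀ r ∈ R, v r < n) →
      (∃ r ∈ R, (r : ℕ) = 0) → (∃ r ∈ R, (r : ℕ) + 1 = K) →
      (∀ r ∈ R, ∀ s ∈ R, r ≤ s → v r + ((s : ℕ) - (r : ℕ)) ≤ v s) →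
      ∃ ψ : Fin K ↪o Fin n, ∀ r ∈ R, ((ψ r : Fin n) : ℕ) = v r)
    (k : Fin d → ℕ) (P : Finset ((i : Fin d) → Fin (k i))) (hne : P.Nonempty) (hT : TrimP k P)
    (hC : ConnP k P) (K m : ℕ)
    (S : Finset (Fin d → Fin K)) (hS : IsAntichain (· ≤ ·) (S : Set (Fin d → Fin K)))
    (A : Finset (Fin d → Fin m)) (hA : Avoids k P A) : Avoids k P (blk K m S A) := by
  rintro ⟨φ, hφ⟩
  apply hA
  -- block index and residue
  have hex : ∀ x ∈ P, ∃ s ∈ S, ∃ a ∈ A, ∀ i,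
      ((φ i (x i) : Fin (K * m)) : ℕ) = (a i : ℕ) + m * (s i : ℕ) := by
    intro x hx
    have h1 := hφ x hx
    unfold blk at h1
    rw [Finset.mem_image] at h1
    obtain ⟨⟨s, a⟩, hsa, h2⟩ := h1
    rw [Finset.mem_product] at hsa
    refine ⟨s, hsa.1, a, hsa.2, fun i => ?_⟩
    have h3 := congrFun h2 i
    simp only at h3
    rw [← h3]
    rfl
  have hex' : ∀ x : (i : Fin d) → Fin (k i), ∃ s : Fin d → Fin K, x ∈ P → s ∈ S ∧ ∃ a ∈ A, ∀ i,
      ((φ i (x i) : Fin (K * m)) : ℕ) = (a i : ℕ) + m * (s i : ℕ) := by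
    intro x
    by_cases hx : x ∈ P
    · obtain ⟨s, hs, a, ha, h⟩ := hex x hx
      exact ⟨s, fun _ => ⟨hs, a, ha, h⟩⟩
    · obtain ⟨x0, hx0⟩ := hne
      obtain ⟨s, -⟩ := hex x0 hx0
      exact ⟨s, fun h => absurd h hx⟩
  choose c hc using hex'
  have hcm : ∀ p ∈ P, ∀ q ∈ P, p ≤ q → c p = c q := by
    intro p hp q hq hpq
    obtain ⟨hp1, a, ha, hpa⟩ := hc p hp
    obtain ⟨hq1, b, hb, hqb⟩ := hc q hq
    refine hS.eq hp1 hq1 ?_
    intro i
    have h1 : φ i (p i) ≤ φ i (q i) := (φ i).monotone (hpq i)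
    have h2 := Fin.le_def.1 h1
    rw [hpa i, hqb i] at h2
    rw [Fin.le_def]
    by_contra hlt
    push Not at hlt
    have h3 : ((c q i : Fin K) : ℕ) + 1 ≤ ((c p i : Fin K) : ℕ) := hlt
    have h4 := Nat.mul_le_mul_left m h3
    have h5 := (b i).isLt
    rw [Nat.mul_add, Nat.mul_one] at h4
    omega
  have hconst := hC _ c hcm
  have hψ : ∀ i, ∃ ψ : Fin (k i) ↪o Fin m, ∀ x ∈ P, ((ψ (x i) : Fin m) : ℕ) =
      ((φ i (x i) : Fin (K * m)) : ℕ) % m := by
    intro i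
    have hmod : ∀ x ∈ P, ((φ i (x i) : Fin (K * m)) : ℕ) =
        ((φ i (x i) : Fin (K * m)) : ℕ) % m + m * ((c x i : Fin K) : ℕ) ∧
        ((φ i (x i) : Fin (K * m)) : ℕ) % m < m := by
      intro x hx
      obtain ⟨-, a, -, h⟩ := hc x hx
      have h1 : ((φ i (x i) : Fin (K * m)) : ℕ) % m = (a i : ℕ) := by
        rw [h i, Nat.add_mul_mod_self_left, Nat.mod_eq_of_lt (a i).isLt]
      rw [h1]
      exact ⟨h i, (a i).isLt⟩
    have g1 : ∀ r ∈ (P.image fun x => x i : Finset (Fin (k i))), ((φ i r : Fin (K * m)) : ℕ) % m < m := by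
      intro r hr
      obtain ⟨x, hx, rfl⟩ := Finset.mem_image.1 hr
      exact (hmod x hx).2
    have g2 : ∃ r ∈ (P.image fun x => x i : Finset (Fin (k i))), ((r : Fin (k i)) : ℕ) = 0 := by
      obtain ⟨x, hx, h0⟩ := (hT i).1
      exact ⟨x i, Finset.mem_image_of_mem _ hx, h0⟩
    have g3 : ∃ r ∈ (P.image fun x => x i : Finset (Fin (k i))),
        ((r : Fin (k i)) : ℕ) + 1 = k i := by
      obtain ⟨x, hx, h0⟩ := (hT i).2
      exact ⟨x i, Finset.mem_image_of_mem _ hx, h0⟩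
    have g4 : ∀ r ∈ (P.image fun x => x i : Finset (Fin (k i))),
        ∀ s ∈ (P.image fun x => x i : Finset (Fin (k i))), r ≤ s →
        ((φ i r : Fin (K * m)) : ℕ) % m + (((s : Fin (k i)) : ℕ) - ((r : Fin (k i)) : ℕ)) ≤
          ((φ i s : Fin (K * m)) : ℕ) % m := by
      intro r hr s hs hrs
      obtain ⟨x, hx, rfl⟩ := Finset.mem_image.1 hr
      obtain ⟨y, hy, rfl⟩ := Finset.mem_image.1 hs
      have h1 := (hmod x hx).1
      have h2 := (hmod y hy).1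
      have h3 := hconst x hx y hy
      rw [h3] at h1
      have h4 : (x i : ℕ) ≤ (y i : ℕ) := Fin.le_def.1 hrs
      have h5 := BLKaux_gap (φ i) (x i) ((y i : ℕ) - (x i : ℕ)) (y i) (by omega)
      omega
    obtain ⟨ψ, hψ⟩ := hext (k i) m (P.image fun x => x i)
      (fun r => ((φ i r : Fin (K * m)) : ℕ) % m) g1 g2 g3 g4
    exact ⟨ψ, fun x hx => hψ (x i) (Finset.mem_image_of_mem _ hx)⟩
  choose ψ hψ using hψ
  refine ⟨ψ, fun x hx => ?_⟩
  obtain ⟨-, a, ha, h⟩ := hc x hx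
  have e : (fun i => ψ i (x i)) = a := by
    funext i
    apply Fin.ext
    rw [hψ i x hx, h i, Nat.add_mul_mod_self_left, Nat.mod_eq_of_lt (a i).isLt]
  rw [e]
  exact ha

end Pool.Agent.R612.TG
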