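import Mathlib

/-! Definitions for the two-group theorem (MP_2bee9d_co). -/

set_option autoImplicit false

namespace Pool.Agent.R612.TG

variable {d : ℕ}

/-- `A` avoids the `d`-dimensional pattern `P`. -/
def Avoids (k : Fin d → ℕ) (P : Finset ((i : Fin d) → Fin (k i))) {n : ℕ}
    (A : Finset (Fin d → Fin n)) : Prop :=
  ¬ ∃ φ : (i : Fin d) → (Fin (k i) ↪o Fin n), ∀ x ∈ P, (fun i => φ i (x i)) ∈ A

/-- the extremal function `f(n,P,d)` -/
noncomputable def ex (k : Fin d → ℕ) (P : Finset ((i : Fin d) → Fin (k i))) (n : ℕ) : ℕ :=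
  sSup {m : ℕ | ∃ A : Finset (Fin d → Fin n), A.card = m ∧ Avoids k P A}

/-- the pattern obtained from the two-dimensional pattern `Q` by duplicating its coordinates:
coordinate `i` of the new pattern is a copy of coordinate `side i` of `Q` -/
def dup (side : Fin d → Bool) (K : Bool → ℕ) (Q : Finset ((b : Bool) → Fin (K b))) :
    Finset ((i : Fin d) → Fin (K (side i))) :=
  Q.image fun q i => q (side i)

/-- reversal of some coordinates -/
def flipP (k : Fin d → ℕ) (rev : Fin d → Bool) (P : Finset ((i : Fin d) → Fin (k i))) :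
    Finset ((i : Fin d) → Fin (k i)) :=
  P.image fun x i => if rev i then (x i).rev else x i

/-- connectedness of the comparability graph of `Q` (product order), in functional form -/
def Conn (K : Bool → ℕ) (Q : Finset ((b : Bool) → Fin (K b))) : Prop :=
  ∀ c : ((b : Bool) → Fin (K b)) → ℕ, (∀ p ∈ Q, ∀ q ∈ Q, p ≤ q → c p = c q) →
    ∀ p ∈ Q, ∀ q ∈ Q, c p = c q

/-- the boundary lines of `Q` are not empty -/
def Trim (K : Bool → ℕ) (Q : Finset ((b : Bool) → Fin (K b))) : Prop :=
  ∀ b, (∃ q ∈ Q, (q b : ℕ) = 0) ∧ (∃ q ∈ Q, (q b : ℕ) + 1 = K b)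

/-- the coordinates of group `b` -/
def Gr (side : Fin d → Bool) (b : Bool) : Finset (Fin d) := Finset.univ.filter fun i => side i = b

/-- `Y` lies in the twisted block of index `ι` (with respect to the coordinates in `G`) and
corresponds to `y` -/
def Rel (k n : ℤ) (G : Finset (Fin d)) (ι : ℤ) (Y y : Fin d → ℤ) : Prop :=
  ∃ T M : ℤ, (∀ i ∈ G, T ≤ Y i) ∧ (∃ i ∈ G, Y i = T) ∧ (∀ i ∈ G, Y i ≤ M) ∧ (∃ i ∈ G, Y i = M) ∧
    ∀ i ∈ G, 0 ≤ y i ∧ y i < n ∧ k * (y i + ι * n) ≤ (k - ι - 1) * T + ι * M + Y i ∧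
      (k - ι - 1) * T + ι * M + Y i < k * (y i + ι * n) + k

/-- cast of a point to the integers -/
def zc {n : ℕ} (Y : Fin d → Fin n) : Fin d → ℤ := fun i => ((Y i : ℕ) : ℤ)

open Classical in
/-- the blown up set -/
noncomputable def big (k n : ℕ) (side : Fin d → Bool) (A : Finset (Fin d → Fin n)) :
    Finset (Fin d → Fin (k * n)) :=
  Finset.univ.filter fun Y => ∃ ι : ℕ, ι < k ∧ ∃ y ∈ A,
    Rel (k : ℤ) n (Gr side true) ι (zc Y) (zc y) ∧
    Rel (k : ℤ) n (Gr side false) (k - 1 - ι) (zc Y) (zc y)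

/-- the preimage with parameters `e` -/
def bld (k n : ℤ) (j0 j1 : Fin d) (ι : ℤ) (y e : Fin d → ℤ) : Fin d → ℤ :=
  let r := (ι * e j1) % k
  let m := (y j1 - y j0) - (e j1 + r) / k
  let T := y j0 + ι * n - (ι * e j1) / k - ι * m
  fun i => if i = j0 then T else if i = j1 then T + (e j1 + k * m)
    else T + k * (y i - y j0) - r + e i

open Classical in
/-- the points of `A` without ties inside the groups -/
noncomputable def gen {n : ℕ} (side : Fin d → Bool) (A : Finset (Fin d → Fin n)) :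
    Finset (Fin d → Fin n) :=
  A.filter fun x => ∀ i j, i ≠ j → side i = side j → x i ≠ x j

end Pool.Agent.R612.TG
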