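import Pool.Agent.R612.TG.Defs

/-! Definitions for the block inequality (MP_2bee9d_co). -/

set_option autoImplicit false

namespace Pool.Agent.R612.TG

variable {d : ℕ}

/-- connectedness of the comparability graph of `P` (product order), in functional form -/
def ConnP (k : Fin d → ℕ) (P : Finset ((i : Fin d) → Fin (k i))) : Prop :=
  ∀ (β : Type) (c : ((i : Fin d) → Fin (k i)) → β), (∀ p ∈ P, ∀ q ∈ P, p ≤ q → c p = c q) →
    ∀ p ∈ P, ∀ q ∈ P, c p = c q

/-- the boundary slices of `P` are not empty -/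
def TrimP (k : Fin d → ℕ) (P : Finset ((i : Fin d) → Fin (k i))) : Prop :=
  ∀ i, (∃ x ∈ P, (x i : ℕ) = 0) ∧ (∃ x ∈ P, (x i : ℕ) + 1 = k i)

/-- the largest size of an antichain in `[K]^d` -/
noncomputable def anti (d K : ℕ) : ℕ :=
  sSup {s : ℕ | ∃ S : Finset (Fin d → Fin K), IsAntichain (· ≤ ·) (S : Set (Fin d → Fin K)) ∧
    S.card = s}

/-- copies of `A` in the blocks with indices in `S` -/
def blk (K m : ℕ) (S : Finset (Fin d → Fin K)) (A : Finset (Fin d → Fin m)) :
    Finset (Fin d → Fin (K * m)) :=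
  (S ×ˢ A).image fun p i => finProdFinEquiv (p.1 i, p.2 i)

end Pool.Agent.R612.TG
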