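import Pool.Agent.R612.TG.Defs

/-! TG-EXT: extension of an increasing partial map (helper656). -/

set_option autoImplicit false

namespace Pool.Agent.R612.TG

-- TG-EXT
theorem extend (K n : ℕ) (R : Finset (Fin K)) (v : Fin K → ℕ) (hv : ∀ r ∈ R, v r < n)
    (h0 : ∃ r ∈ R, (r : ℕ) = 0) (h1 : ∃ r ∈ R, (r : ℕ) + 1 = K)
    (hm : ∀ r ∈ R, ∀ s ∈ R, r ≤ s → v r + ((s : ℕ) - (r : ℕ)) ≤ v s) :
    ∃ ψ : Fin K ↪o Fin n, ∀ r ∈ R, ((ψ r : Fin n) : ℕ) = v r := by
  obtain ⟨a, ha, ha0⟩ := h0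
  obtain ⟨b, hb, hb1⟩ := h1
  have hn : 0 < n := lt_of_le_of_lt (Nat.zero_le _) (hv a ha)
  set f : Fin K → ℕ := fun j => (R.filter (fun r => r ≤ j)).sup
    (fun r => v r + ((j : ℕ) - (r : ℕ))) with hf
  have hlt : ∀ j, f j < n := by
    intro j
    simp only [hf]
    rw [Finset.sup_lt_iff (show (⊥ : ℕ) < n from hn)]
    intro r hr
    rw [Finset.mem_filter] at hr
    have hrb : r ≤ b := by
      rw [Fin.le_def]
      have := r.isLt
      omega
    have h2 := hm r hr.1 b hb hrb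
    have h3 := hv b hb
    have h4 := j.isLt
    omega
  have hne : ∀ j : Fin K, (R.filter (fun r => r ≤ j)).Nonempty := fun j =>
    ⟨a, Finset.mem_filter.2 ⟨ha, by rw [Fin.le_def]; omega⟩⟩
  have hmono : StrictMono f := by
    intro j j' hjj
    obtain ⟨r, hr, hre⟩ := Finset.exists_mem_eq_sup (R.filter (fun r => r ≤ j)) (hne j)
      (fun r => v r + ((j : ℕ) - (r : ℕ)))
    rw [Finset.mem_filter] at hr
    have h2 : r ≤ j' := hr.2.trans hjj.le
    have h3 : v r + ((j' : ℕ) - (r : ℕ)) ≤ f j' := by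
      simp only [hf]
      exact Finset.le_sup (f := fun r : Fin K => v r + ((j' : ℕ) - (r : ℕ)))
        (Finset.mem_filter.2 ⟨hr.1, h2⟩)
    have h4 : f j = v r + ((j : ℕ) - (r : ℕ)) := hre
    have h5 : (r : ℕ) ≤ j := hr.2
    have h6 : (j : ℕ) < j' := hjj
    omega
  have hR : ∀ r ∈ R, f r = v r := by
    intro r hr
    apply le_antisymm
    · simp only [hf]
      refine Finset.sup_le fun s hs => ?_
      rw [Finset.mem_filter] at hs
      exact hm s hs.1 r hr hs.2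
    · have h7 : v r + ((r : ℕ) - (r : ℕ)) ≤ f r := by
        simp only [hf]
        exact Finset.le_sup (f := fun s : Fin K => v s + ((r : ℕ) - (s : ℕ)))
          (Finset.mem_filter.2 ⟨hr, le_refl r⟩)
      omega
  have hsm : StrictMono (fun j => (⟨f j, hlt j⟩ : Fin n)) := fun j j' h => hmono h
  exact ⟨OrderEmbedding.ofStrictMono _ hsm, fun r hr => hR r hr⟩

end Pool.Agent.R612.TG
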