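import Pool.Agent.R612.TG.Defs2

/-! TB-LIM: liminf inequality from supermultiplicativity. -/

set_option autoImplicit false

namespace Pool.Agent.R612.TG

open Filter Topology

theorem lim2 (p : ℕ) (F a : ℕ → ℕ) (hF : Monotone F)
    (h : ∀ K m : ℕ, 0 < K → 0 < m → a K * F m ≤ F (K * m)) (m : ℕ) (hm : 0 < m) :
    (liminf (fun K : ℕ => ((a K : ℕ) : ENNReal) / ((K : ENNReal) ^ p)) atTop) *
      (((F m : ℕ) : ENNReal) / ((m : ENNReal) ^ p)) ≤
    liminf (fun n : ℕ => ((F n : ℕ) : ENNReal) / ((n : ENNReal) ^ p)) atTop := by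
  have hm' : (0:ℝ) < m := by exact_mod_cast hm
  set u : ℕ → ENNReal := fun K : ℕ => ((a K : ℕ) : ENNReal) / ((K : ENNReal) ^ p) with hu
  set G : ENNReal := ((F m : ℕ) : ENNReal) / ((m : ENNReal) ^ p) with hG
  have hmp0 : (m : ENNReal) ^ p ≠ 0 := pow_ne_zero _ (by exact_mod_cast hm.ne')
  have hmpT : (m : ENNReal) ^ p ≠ ⊤ := ENNReal.pow_ne_top (ENNReal.natCast_ne_top m)
  have hGT : G ≠ ⊤ := ENNReal.div_ne_top (ENNReal.natCast_ne_top _) hmp0
  -- the factor tending to one
  have ht : Tendsto (fun N : ℕ => ENNReal.ofReal ((1 - (m:ℝ) / N) ^ p) * G) atTop (𝓝 G) := by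
    have h1 : Tendsto (fun N : ℕ => (1 - (m:ℝ) / N) ^ p) atTop (𝓝 ((1 - 0) ^ p)) :=
      (tendsto_const_nhds.sub (tendsto_const_div_atTop_nhds_zero_nat (m:ℝ))).pow p
    have h2 := ENNReal.tendsto_ofReal h1
    have h3 := ENNReal.Tendsto.mul_const h2 (Or.inr hGT : ENNReal.ofReal ((1 - 0) ^ p) ≠ 0 ∨ G ≠ ⊤)
    simpa using h3
  have hdiv : Tendsto (fun N : ℕ => N / m) atTop atTop := by
    refine tendsto_atTop_atTop.2 fun b => ⟨b * m, fun N hN => ?_⟩
    exact (Nat.le_div_iff_mul_le hm).2 hN
  have h1 : liminf u atTop ≤ liminf (fun N => u (N / m)) atTop := by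
    have : liminf (fun N => u (N / m)) atTop = liminf u (map (fun N : ℕ => N / m) atTop) := rfl
    rw [this]
    exact liminf_le_liminf_of_le hdiv
  have h2 : liminf (fun N : ℕ => ENNReal.ofReal ((1 - (m:ℝ) / N) ^ p) * G) atTop = G :=
    ht.liminf_eq
  calc liminf u atTop * G
      ≤ liminf (fun N => u (N / m)) atTop *
        liminf (fun N : ℕ => ENNReal.ofReal ((1 - (m:ℝ) / N) ^ p) * G) atTop := by
        rw [h2]
        exact mul_le_mul_left h1 _
    _ ≤ liminf ((fun N => u (N / m)) *
        (fun N : ℕ => ENNReal.ofReal ((1 - (m:ℝ) / N) ^ p) * G)) atTop := ENNReal.le_liminf_mul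
    _ ≤ liminf (fun n : ℕ => ((F n : ℕ) : ENNReal) / ((n : ENNReal) ^ p)) atTop := by
        refine liminf_le_liminf ?_
        filter_upwards [eventually_ge_atTop m] with N hN
        have hN0 : 0 < N := lt_of_lt_of_le hm hN
        have hN' : (0:ℝ) < N := by exact_mod_cast hN0
        have hK : 0 < N / m := Nat.div_pos hN hm
        have hmN : (m:ℝ) ≤ N := by exact_mod_cast hN
        set K := N / m with hKdef
        have hKp0 : (K : ENNReal) ^ p ≠ 0 := pow_ne_zero _ (by exact_mod_cast hK.ne')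
        have hKpT : (K : ENNReal) ^ p ≠ ⊤ := ENNReal.pow_ne_top (ENNReal.natCast_ne_top K)
        have hNp0 : (N : ENNReal) ^ p ≠ 0 := pow_ne_zero _ (by exact_mod_cast hN0.ne')
        have hρ : ENNReal.ofReal ((1 - (m:ℝ) / N) ^ p) ≤
            (K : ENNReal) ^ p * (m : ENNReal) ^ p / (N : ENNReal) ^ p := by
          have h5 : N < (K + 1) * m := by
            have := Nat.lt_div_mul_add hm (a := N)
            rw [add_mul, one_mul]
            exact this
          have h6 : (N:ℝ) < ((K : ℝ) + 1) * m := by exact_mod_cast h5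
          have h7 : 1 - (m:ℝ) / N ≤ (K : ℝ) * m / N := by
            rw [le_div_iff₀ hN', sub_mul, div_mul_cancel₀ _ hN'.ne']
            linarith
          have h8 : 0 ≤ 1 - (m:ℝ) / N := by
            rw [sub_nonneg, div_le_one hN']
            exact hmN
          have h9 : (1 - (m:ℝ) / N) ^ p ≤ ((K : ℝ) ^ p * (m:ℝ) ^ p) / (N:ℝ) ^ p := by
            rw [← mul_pow, ← div_pow]
            exact pow_le_pow_left₀ h8 h7 p
          refine (ENNReal.ofReal_le_ofReal h9).trans (le_of_eq ?_)
          rw [ENNReal.ofReal_div_of_pos (by positivity), ENNReal.ofReal_mul (by positivity),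
            ENNReal.ofReal_pow (by positivity), ENNReal.ofReal_pow (by positivity),
            ENNReal.ofReal_pow (by positivity), ENNReal.ofReal_natCast, ENNReal.ofReal_natCast,
            ENNReal.ofReal_natCast]
        have hFle : (a K : ENNReal) * (F m : ENNReal) ≤ (F N : ENNReal) := by
          have h10 : a K * F m ≤ F N := (h K m hK hm).trans (hF (Nat.div_mul_le_self N m))
          exact_mod_cast h10
        calc ((fun N => u (N / m)) * (fun N : ℕ => ENNReal.ofReal ((1 - (m:ℝ) / N) ^ p) * G)) N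
            = u K * (ENNReal.ofReal ((1 - (m:ℝ) / N) ^ p) * G) := rfl
          _ ≤ u K * ((K : ENNReal) ^ p * (m : ENNReal) ^ p / (N : ENNReal) ^ p * G) :=
              mul_le_mul_right (mul_le_mul_left hρ _) _
          _ = ((a K : ENNReal) * (F m : ENNReal)) / (N : ENNReal) ^ p *
              ((K : ENNReal) ^ p * ((K : ENNReal) ^ p)⁻¹) *
              ((m : ENNReal) ^ p * ((m : ENNReal) ^ p)⁻¹) := by
              simp only [hu, hG, div_eq_mul_inv]
              ring
          _ = ((a K : ENNReal) * (F m : ENNReal)) / (N : ENNReal) ^ p := by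
              rw [ENNReal.mul_inv_cancel hKp0 hKpT, ENNReal.mul_inv_cancel hmp0 hmpT, mul_one,
                mul_one]
          _ ≤ (F N : ENNReal) / (N : ENNReal) ^ p := ENNReal.div_le_div_right hFle _

end Pool.Agent.R612.TG
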