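import Pool.Agent.R612.TG.Defs2
import Pool.Agent.R612.TG.EXB

/-! TB-MON: monotonicity of the extremal function (helper127). -/

set_option autoImplicit false

namespace Pool.Agent.R612.TG

variable {d : ℕ}

-- TB-MON
theorem ex_monoP (k : Fin d → ℕ) (P : Finset ((i : Fin d) → Fin (k i))) (hne : P.Nonempty)
    (hT : TrimP k P) (n : ℕ) : ex k P n ≤ ex k P (n + 1) := by
  classical
  obtain ⟨A, hA1, hA2⟩ := ex_att k P hne n
  rw [← hA1]
  have hinj : Function.Injective (fun (x : Fin d → Fin n) (i : Fin d) => (x i).castSucc) := by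
    intro x y hxy
    funext i
    exact Fin.castSucc_injective n (congrFun hxy i)
  have hcard : (A.image (fun (x : Fin d → Fin n) (i : Fin d) => (x i).castSucc)).card = A.card :=
    Finset.card_image_of_injective _ hinj
  rw [← hcard]
  apply ex_le
  rintro ⟨φ', hφ'⟩
  have hlt : ∀ (i : Fin d) (j : Fin (k i)), ((φ' i j : Fin (n + 1)) : ℕ) < n := by
    intro i j
    obtain ⟨q, hq, hqK⟩ := (hT i).2
    have h1 := hφ' q hq
    obtain ⟨a, _, ha⟩ := Finset.mem_image.mp h1
    have h2 : (a i).castSucc = φ' i (q i) := congrFun ha i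
    have h3 : j ≤ q i := by
      rw [Fin.le_def]
      have := j.2
      omega
    have h4 : φ' i j ≤ φ' i (q i) := (φ' i).monotone h3
    rw [← h2, Fin.le_def] at h4
    have h5 := (a i).2
    simp only [Fin.val_castSucc] at h4
    omega
  apply hA2
  refine ⟨fun i => OrderEmbedding.ofStrictMono
    (fun j => (⟨((φ' i j : Fin (n + 1)) : ℕ), hlt i j⟩ : Fin n)) ?_, ?_⟩
  · intro j j' hjj
    exact Fin.lt_def.mpr (Fin.lt_def.mp ((φ' i).strictMono hjj))
  · intro x hx
    obtain ⟨a, haA, ha⟩ := Finset.mem_image.mp (hφ' x hx)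
    have : a = fun i => (⟨((φ' i (x i) : Fin (n + 1)) : ℕ), hlt i (x i)⟩ : Fin n) := by
      funext i
      apply Fin.ext
      have h2 : (a i).castSucc = φ' i (x i) := congrFun ha i
      exact congrArg (fun z : Fin (n + 1) => (z : ℕ)) h2
    rw [this] at haA
    exact haA

end Pool.Agent.R612.TG
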