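import Pool.Agent.R612.TG.Defs

/-! Statements of the pieces (sorry = to be typed in separate files). -/

set_option autoImplicit false

namespace Pool.Agent.R612.TG.Stm
open Pool.Agent.R612.TG Filter

variable {d : ℕ}

-- TG-EXT
theorem extend (K n : ℕ) (R : Finset (Fin K)) (v : Fin K → ℕ) (hv : ∀ r ∈ R, v r < n)
    (h0 : ∃ r ∈ R, (r : ℕ) = 0) (h1 : ∃ r ∈ R, (r : ℕ) + 1 = K)
    (hm : ∀ r ∈ R, ∀ s ∈ R, r ≤ s → v r + ((s : ℕ) - (r : ℕ)) ≤ v s) :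
    ∃ ψ : Fin K ↪o Fin n, ∀ r ∈ R, ((ψ r : Fin n) : ℕ) = v r := by sorry

-- TG-REL
theorem mono1 (k n : ℤ) (hk : 0 < k) (hn : 0 < n) (G : Finset (Fin d)) (ι ι' : ℤ)
    (h0 : 0 ≤ ι) (h1 : ι < k) (h0' : 0 ≤ ι') (h1' : ι' < k) (Y y Y' y' : Fin d → ℤ)
    (h : Rel k n G ι Y y) (h' : Rel k n G ι' Y' y') (hY : ∀ i ∈ G, Y i ≤ Y' i) : ι ≤ ι' := by sorry
theorem mono2 (k n : ℤ) (hk : 0 < k) (hn : 0 < n) (G : Finset (Fin d)) (ι : ℤ)
    (h0 : 0 ≤ ι) (h1 : ι < k) (Y y Y' y' : Fin d → ℤ) (g : ℤ) (hg : 0 ≤ g)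
    (h : Rel k n G ι Y y) (h' : Rel k n G ι Y' y') (hY : ∀ i ∈ G, Y i + g ≤ Y' i) :
    ∀ i ∈ G, y i + g ≤ y' i := by sorry

-- TG-BLD
theorem build (k n : ℤ) (hk : 0 < k) (hn : 0 < n) (G : Finset (Fin d)) (j0 j1 : Fin d)
    (hj0 : j0 ∈ G) (hj1 : j1 ∈ G) (ι : ℤ) (h0 : 0 ≤ ι) (h1 : ι < k) (y : Fin d → ℤ)
    (hy : ∀ i ∈ G, 0 ≤ y i ∧ y i < n) (hmin : ∀ i ∈ G, i ≠ j0 → y j0 < y i)
    (hmax : ∀ i ∈ G, i ≠ j1 → y i < y j1) (e : Fin d → ℤ) (he : ∀ i ∈ G, 0 ≤ e i ∧ e i < k)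
    (he0 : e j0 = 0) :
    (∀ i ∈ G, 0 ≤ bld k n j0 j1 ι y e i ∧ bld k n j0 j1 ι y e i < k * n) ∧
      Rel k n G ι (bld k n j0 j1 ι y e) y := by sorry
theorem bld_inj (k n : ℤ) (hk : 0 < k) (G : Finset (Fin d)) (j0 j1 : Fin d)
    (hj0 : j0 ∈ G) (hj1 : j1 ∈ G) (ι : ℤ) (y e e' : Fin d → ℤ)
    (he : ∀ i ∈ G, 0 ≤ e i ∧ e i < k) (he' : ∀ i ∈ G, 0 ≤ e' i ∧ e' i < k)
    (he0 : e j0 = 0) (he0' : e' j0 = 0)
    (h : ∀ i ∈ G, bld k n j0 j1 ι y e i = bld k n j0 j1 ι y e' i) : ∀ i ∈ G, e i = e' i := by sorry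

-- TG-EX
theorem ex_le (k : Fin d → ℕ) (P : Finset ((i : Fin d) → Fin (k i))) (n : ℕ)
    (A : Finset (Fin d → Fin n)) (hA : Avoids k P A) : A.card ≤ ex k P n := by sorry
theorem ex_att (k : Fin d → ℕ) (P : Finset ((i : Fin d) → Fin (k i))) (hP : P.Nonempty) (n : ℕ) :
    ∃ A : Finset (Fin d → Fin n), A.card = ex k P n ∧ Avoids k P A := by sorry
theorem ex_mono (side : Fin d → Bool) (K : Bool → ℕ) (Q : Finset ((b : Bool) → Fin (K b)))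
    (hQ : Trim K Q) (n : ℕ) :
    ex (fun i => K (side i)) (dup side K Q) n ≤ ex (fun i => K (side i)) (dup side K Q) (n + 1) := by
  sorry

-- TG-TIE
theorem tie (side : Fin d → Bool) (K : Bool → ℕ) (Q : Finset ((b : Bool) → Fin (K b)))
    (n : ℕ) (A : Finset (Fin d → Fin n)) (hA : Avoids (fun i => K (side i)) (dup side K Q) A) :
    n * A.card ≤ n * (gen side A).card + d * d * ex (fun i => K (side i)) (dup side K Q) n := by sorry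

-- TG-CNT
theorem count (side : Fin d → Bool) (hs : ∀ b, ∃ i, side i = b) (k n : ℕ) (hk : 0 < k) (hn : 0 < n)
    (A : Finset (Fin d → Fin n)) : k ^ (d - 1) * (gen side A).card ≤ (big k n side A).card := by sorry

-- TG-AV
theorem big_avoids (side : Fin d → Bool) (hs : ∀ b, ∃ i, side i = b) (K : Bool → ℕ)
    (Q : Finset ((b : Bool) → Fin (K b))) (hQ : Trim K Q) (hc : Conn K Q) (k n : ℕ) (hk : 0 < k)
    (hn : 0 < n) (A : Finset (Fin d → Fin n))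
    (hA : Avoids (fun i => K (side i)) (dup side K Q) A) :
    Avoids (fun i => K (side i)) (dup side K Q) (big k n side A) := by sorry

-- TG-LIM
theorem lim (p C : ℕ) (hp : 0 < p) (F : ℕ → ℕ) (hF : Monotone F)
    (h : ∀ k n : ℕ, 0 < k → 0 < n → k ^ p * (n * F n) ≤ n * F (k * n) + k ^ p * (C * F n)) :
    ∃ L : ENNReal, Tendsto (fun n : ℕ => ((F n : ℕ) : ENNReal) / ((n : ENNReal) ^ p)) atTop (nhds L) := by
  sorry

-- TG-REV
theorem ex_flip (k : Fin d → ℕ) (rev : Fin d → Bool) (P : Finset ((i : Fin d) → Fin (k i)))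
    (n : ℕ) : ex k (flipP k rev P) n = ex k P n := by sorry

-- TG-CONN
theorem conn_or (K : Bool → ℕ) (Q : Finset ((b : Bool) → Fin (K b))) :
    Conn K Q ∨ Conn K (Q.image fun q b => if b then (q b).rev else q b) := by sorry

end Pool.Agent.R612.TG.Stm
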