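import Pool.Agent.R612.TG.Defs2

set_option autoImplicit false

namespace Pool.Agent.R612.TG.Stm
open Pool.Agent.R612.TG Filter

variable {d : ℕ}

-- TB-BLK
theorem blk_card (K m : ℕ) (S : Finset (Fin d → Fin K)) (A : Finset (Fin d → Fin m)) :
    (blk K m S A).card = S.card * A.card := by sorry
/-- uses `extend` of Stm -/
theorem blk_avoids (hext : ∀ (K n : ℕ) (R : Finset (Fin K)) (v : Fin K → ℕ), (∀ r ∈ R, v r < n) →
      (∃ r ∈ R, (r : ℕ) = 0) → (∃ r ∈ R, (r : ℕ) + 1 = K) →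
      (∀ r ∈ R, ∀ s ∈ R, r ≤ s → v r + ((s : ℕ) - (r : ℕ)) ≤ v s) →
      ∃ ψ : Fin K ↪o Fin n, ∀ r ∈ R, ((ψ r : Fin n) : ℕ) = v r)
    (k : Fin d → ℕ) (P : Finset ((i : Fin d) → Fin (k i))) (hne : P.Nonempty) (hT : TrimP k P)
    (hC : ConnP k P) (K m : ℕ)
    (S : Finset (Fin d → Fin K)) (hS : IsAntichain (· ≤ ·) (S : Set (Fin d → Fin K)))
    (A : Finset (Fin d → Fin m)) (hA : Avoids k P A) : Avoids k P (blk K m S A) := by sorry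

-- TB-ANT
theorem anti_att (d K : ℕ) : ∃ S : Finset (Fin d → Fin K),
    IsAntichain (· ≤ ·) (S : Set (Fin d → Fin K)) ∧ S.card = anti d K := by sorry
theorem anti_ge (d K : ℕ) (hd : 0 < d) (hK : 0 < K) : K ^ (d - 1) ≤ d * anti d K := by sorry

-- TB-ANT3
theorem anti3_ge (K : ℕ) : 3 * K ^ 2 ≤ 4 * anti 3 K := by sorry

-- TB-MON
theorem ex_monoP (k : Fin d → ℕ) (P : Finset ((i : Fin d) → Fin (k i))) (hne : P.Nonempty)
    (hT : TrimP k P) (n : ℕ) : ex k P n ≤ ex k P (n + 1) := by sorry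

-- TB-LIM
theorem lim2 (p : ℕ) (F a : ℕ → ℕ) (hF : Monotone F)
    (h : ∀ K m : ℕ, 0 < K → 0 < m → a K * F m ≤ F (K * m)) (m : ℕ) (hm : 0 < m) :
    (liminf (fun K : ℕ => ((a K : ℕ) : ENNReal) / ((K : ENNReal) ^ p)) atTop) *
      (((F m : ℕ) : ENNReal) / ((m : ENNReal) ^ p)) ≤
    liminf (fun n : ℕ => ((F n : ℕ) : ENNReal) / ((n : ENNReal) ^ p)) atTop := by sorry

-- TU-UP
theorem untrim_upper (k k' lo hi : Fin d → ℕ) (hk : ∀ i, k' i = lo i + k i + hi i)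
    (P : Finset ((i : Fin d) → Fin (k i))) (hne : P.Nonempty) (hT : TrimP k P)
    (P' : Finset ((i : Fin d) → Fin (k' i)))
    (hP' : ∀ x' : (i : Fin d) → Fin (k' i), x' ∈ P' ↔ ∃ x ∈ P, ∀ i, (x' i : ℕ) = lo i + (x i : ℕ))
    (n : ℕ) : ex k' P' n + ∏ i, (n - (lo i + hi i)) ≤ n ^ d + ex k P n := by sorry
-- TU-LO
theorem untrim_lower (k k' lo hi : Fin d → ℕ) (hk : ∀ i, k' i = lo i + k i + hi i)
    (P : Finset ((i : Fin d) → Fin (k i))) (hne : P.Nonempty) (hT : TrimP k P)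
    (P' : Finset ((i : Fin d) → Fin (k' i)))
    (hP' : ∀ x' : (i : Fin d) → Fin (k' i), x' ∈ P' ↔ ∃ x ∈ P, ∀ i, (x' i : ℕ) = lo i + (x i : ℕ))
    (t : ℕ) (ht : ∀ i, lo i + hi i ≤ t) (n : ℕ) (hn : t ≤ n) :
    n ^ d + ex k P (n - t) ≤ ex k' P' n + ∏ i, (n - (lo i + hi i)) := by sorry
-- TU-LIM
theorem untrim_lim (hd : 0 < d) (s : Fin d → ℕ) (t : ℕ) (ht : ∀ i, s i ≤ t) (F F' : ℕ → ℕ)
    (h1 : ∀ n, F' n + ∏ i, (n - s i) ≤ n ^ d + F n)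
    (h2 : ∀ n, t ≤ n → n ^ d + F (n - t) ≤ F' n + ∏ i, (n - s i)) (L : ENNReal)
    (hL : Tendsto (fun n : ℕ => ((F n : ℕ) : ENNReal) / ((n : ENNReal) ^ (d - 1))) atTop (nhds L)) :
    Tendsto (fun n : ℕ => ((F' n : ℕ) : ENNReal) / ((n : ENNReal) ^ (d - 1))) atTop
      (nhds (L + ∑ i, (s i : ENNReal))) := by sorry

end Pool.Agent.R612.TG.Stm
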